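import Pool.Agent.Helper44.CM.Defs

/-!
Project MM, block B4 (L2 part): definitions.
-/

open MeasureTheory

namespace CM

variable {n : ℕ}

/-- Polynomial growth. -/
def PG (f : E n → ℝ) : Prop := ∃ (C : ℝ) (k : ℕ), ∀ x, |f x| ≤ C * (1 + ‖x‖) ^ k

/-- `C^k` with polynomial growth of all partial derivatives of order at most `k`. -/
def PGC (k : ℕ) (f : E n → ℝ) : Prop :=
  ContDiff ℝ k f ∧ ∀ l : List (Fin n), l.length ≤ k → PG (pdl l f)

/-- The weight `W` is a bounded perturbation of `|x|²/2`. -/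
def GW (K : ℝ) (W : E n → ℝ) : Prop := ∀ x, |W x - qn x| ≤ K

/-- Weighted integral. -/
noncomputable def wint (W f : E n → ℝ) : ℝ := ∫ x, f x * Real.exp (-(W x))

/-- Carre du champ. -/
noncomputable def GA (τ : E n → Mt n) (f g : E n → ℝ) : E n → ℝ :=
  fun x => ∑ i, ∑ j, τ x i j * pd i f x * pd j g x

/-- `|D²u|²` in the metric: `tr (τ D²u τ D²u)`. -/
noncomputable def HN (τ : E n → Mt n) (u : E n → ℝ) : E n → ℝ :=
  fun x => ((τ x * hess u x) * (τ x * hess u x)).trace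

/-- The potentials `V` for which the L2 theory works. -/
structure VG (V : E n → ℝ) : Prop where
  reg : ContDiff ℝ 3 V
  pos : ∃ a, 0 < a ∧ ∀ x, LB a (hess V x)
  bdh : ∃ M, ∀ x i j, |hess V x i j| ≤ M
  pg3 : ∀ i j k, PG (pd i (pd j (pd k V)))
  gau : ∃ K, GW K (WW V)

end CM
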