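import Pool.Agent.Helper63.MM.Tau
import Pool.Agent.Helper17.MM.PGC
import Pool.Agent.Helper31.MM.PoiCM
import Pool.Agent.Helper74.MM.IBP

/-!
Project MM, helper63: row B4.STEIN.
-/

open MeasureTheory

namespace CM.H63

variable {n : ℕ}

/-! ### weighted integrals -/

theorem wint_int {V f : E n → ℝ} (hV : VG V) (hc : Continuous f) (hf : PG f) :
    Integrable (fun x => f x * Real.exp (-(WW V x))) := by
  obtain ⟨K, hK⟩ := hV.gau
  exact integrable_pg (contDiff_WW hV).continuous hK hc hf

theorem wint_add {V f g : E n → ℝ} (hV : VG V) (hf : Continuous f) (hf' : PG f)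
    (hg : Continuous g) (hg' : PG g) :
    wint (WW V) (fun x => f x + g x) = wint (WW V) f + wint (WW V) g := by
  unfold wint
  rw [← integral_add (wint_int hV hf hf') (wint_int hV hg hg')]
  exact integral_congr_ae (Filter.Eventually.of_forall fun x => by simp only; ring)

theorem wint_sub {V f g : E n → ℝ} (hV : VG V) (hf : Continuous f) (hf' : PG f)
    (hg : Continuous g) (hg' : PG g) :
    wint (WW V) (fun x => f x - g x) = wint (WW V) f - wint (WW V) g := by
  unfold wint
  rw [← integral_sub (wint_int hV hf hf') (wint_int hV hg hg')]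
  exact integral_congr_ae (Filter.Eventually.of_forall fun x => by simp only; ring)

theorem wint_neg (W f : E n → ℝ) : wint W (fun x => - f x) = - wint W f := by
  unfold wint
  rw [← integral_neg]
  exact integral_congr_ae (Filter.Eventually.of_forall fun x => by simp only; ring)

theorem wint_const_mul (W f : E n → ℝ) (c : ℝ) :
    wint W (fun x => c * f x) = c * wint W f := by
  unfold wint
  rw [← integral_const_mul]
  exact integral_congr_ae (Filter.Eventually.of_forall fun x => by simp only; ring)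

theorem wint_congr {W f g : E n → ℝ} (h : ∀ x, f x = g x) : wint W f = wint W g := by
  have : f = g := funext h
  rw [this]

theorem wint_sum {ι : Type*} {V : E n → ℝ} (hV : VG V) (s : Finset ι) {f : ι → E n → ℝ}
    (hf : ∀ a ∈ s, Continuous (f a)) (hf' : ∀ a ∈ s, PG (f a)) :
    wint (WW V) (fun x => ∑ a ∈ s, f a x) = ∑ a ∈ s, wint (WW V) (f a) := by
  unfold wint
  rw [← integral_finsetSum s (fun a ha => wint_int hV (hf a ha) (hf' a ha))]
  exact integral_congr_ae (Filter.Eventually.of_forall fun x => by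
    simp only [Finset.sum_mul])

/-! ### the divergence of `τ` -/

theorem third_symm {V : E n → ℝ} (hV : ContDiff ℝ 3 V) (a c d : Fin n) (x : E n) :
    pd a (pd c (pd d V)) x = pd d (pd a (pd c V)) x := by
  have h2 : ContDiff ℝ 2 V := hV.of_le (by norm_num)
  have e : pd c (pd d V) = pd d (pd c V) := by
    funext y
    exact CM.H63.pd_comm h2 c d y
  rw [e]
  exact CM.H63.pd_comm (by exact_mod_cast CM.H63.contDiff_pd (k := 2) (by exact_mod_cast hV) c) a d x

theorem tau_symm {V : E n → ℝ} (hV : ContDiff ℝ 2 V) (x : E n) (i j : Fin n) :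
    tau V x i j = tau V x j i := by
  have h : (hess V x).transpose = hess V x := by
    ext a b
    exact hess_symm hV x b a
  have h2 : (tau V x).transpose = tau V x := by
    unfold tau
    rw [Matrix.transpose_nonsing_inv, h]
  have := congrFun (congrFun h2 j) i
  exact this

theorem hess_mul_tau {V : E n → ℝ} (hV : VG V) (x : E n) (i j : Fin n) :
    ∑ a, hess V x i a * tau V x a j = (1 : Mt n) i j := by
  have := congrFun (congrFun (Matrix.mul_nonsing_inv (hess V x) (IsUnit.mk0 _ (vg_det hV x))) i) j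
  rw [Matrix.mul_apply] at this
  exact this

theorem tau_mul_hess {V : E n → ℝ} (hV : VG V) (x : E n) (i j : Fin n) :
    ∑ a, tau V x i a * hess V x a j = (1 : Mt n) i j := by
  have := congrFun (congrFun (Matrix.nonsing_inv_mul (hess V x) (IsUnit.mk0 _ (vg_det hV x))) i) j
  rw [Matrix.mul_apply] at this
  exact this

/-- the divergence of `τ` with respect to `exp (-W)`. -/
theorem div_tau {V : E n → ℝ} (hV : VG V) (b : Fin n) (x : E n) :
    ∑ a, (pd a (fun y => tau V y a b) x - tau V x a b * pd a (WW V) x) = - x b := by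
  have hV2 : ContDiff ℝ 2 V := hV.reg.of_le (by norm_num)
  have h1 : ∀ a, tau V x a b * pd a (WW V) x
      = (∑ c, x c * (hess V x c a * tau V x a b))
        - ∑ c, ∑ d, tau V x a b * tau V x c d * pd a (pd c (pd d V)) x := by
    intro a
    rw [pd_WW hV, mul_sub, Finset.mul_sum, Finset.mul_sum]
    congr 1
    · refine Finset.sum_congr rfl fun c _ => ?_
      simp only [hess, Matrix.of_apply]
      ring
    · refine Finset.sum_congr rfl fun c _ => ?_
      rw [Finset.mul_sum]
      exact Finset.sum_congr rfl fun d _ => by ring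
  have h2 : ∑ a, ∑ c, x c * (hess V x c a * tau V x a b) = x b := by
    rw [Finset.sum_comm]
    have e : ∀ c, ∑ a, x c * (hess V x c a * tau V x a b) = x c * (1 : Mt n) c b := by
      intro c
      rw [← Finset.mul_sum, hess_mul_tau hV]
    rw [Finset.sum_congr rfl fun c _ => e c]
    simp [Matrix.one_apply]
  have h3 : ∑ a, pd a (fun y => tau V y a b) x
      = - ∑ a, ∑ c, ∑ d, tau V x a c * pd a (pd c (pd d V)) x * tau V x d b := by
    rw [← Finset.sum_neg_distrib]
    exact Finset.sum_congr rfl fun a _ => pd_tau hV a a b x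
  have h4 : ∑ a, ∑ c, ∑ d, tau V x a c * pd a (pd c (pd d V)) x * tau V x d b
      = ∑ a, ∑ c, ∑ d, tau V x a b * tau V x c d * pd a (pd c (pd d V)) x := by
    have e1 : ∑ a, ∑ c, ∑ d, tau V x a c * pd a (pd c (pd d V)) x * tau V x d b
        = ∑ d, ∑ a, ∑ c, tau V x a c * pd a (pd c (pd d V)) x * tau V x d b := by
      calc ∑ a, ∑ c, ∑ d, tau V x a c * pd a (pd c (pd d V)) x * tau V x d b
          = ∑ a, ∑ d, ∑ c, tau V x a c * pd a (pd c (pd d V)) x * tau V x d b :=
            Finset.sum_congr rfl fun a _ => Finset.sum_comm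
        _ = _ := Finset.sum_comm
    rw [e1]
    refine Finset.sum_congr rfl fun d _ => Finset.sum_congr rfl fun a _ =>
      Finset.sum_congr rfl fun c _ => ?_
    rw [third_symm hV.reg a c d x]
    ring
  rw [Finset.sum_sub_distrib, h3, h4, Finset.sum_congr rfl fun a _ => h1 a,
    Finset.sum_sub_distrib, h2]
  ring

theorem cont_of_pgc {k : ℕ} {f : E n → ℝ} (h : PGC k f) : Continuous f := h.1.continuous

theorem cont_pd {f : E n → ℝ} (h : PGC 1 f) (i : Fin n) : Continuous (pd i f) := by
  have := CM.H63.contDiff_pd (k := 0) (by simpa using h.1) i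
  exact this.continuous

/-- Stein's identity. -/
theorem stein {V φ : E n → ℝ} (hV : VG V) (hφ : PGC 1 φ) (b : Fin n) :
    wint (WW V) (fun x => ∑ a, tau V x a b * pd a φ x) = wint (WW V) (fun x => x b * φ x) := by
  obtain ⟨K, hK⟩ := hV.gau
  have h0 : ∀ a, wint (WW V) (fun x => pd a (fun y => tau V y a b * φ y) x
      - (tau V x a b * φ x) * pd a (WW V) x) = 0 := fun a =>
    Pool.Agent.Helper74.MM.ibp hK (pgc_WW hV) (CM.H17.pgc_mul (pgc_tau hV a b) hφ) a
  have hd : ∀ a x, DifferentiableAt ℝ (fun y => tau V y a b) x := fun a x =>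
    (((pgc_tau hV a b).1).differentiable (by norm_num)) x
  have hφd : ∀ x, DifferentiableAt ℝ φ x := fun x => (hφ.1.differentiable (by norm_num)) x
  have hcf : ∀ a, Continuous (fun x => pd a (fun y => tau V y a b * φ y) x
      - (tau V x a b * φ x) * pd a (WW V) x) := fun a =>
    (cont_pd (CM.H17.pgc_mul (pgc_tau hV a b) hφ) a).sub
      (((cont_of_pgc (pgc_tau hV a b)).mul (cont_of_pgc hφ)).mul (cont_pd (pgc_WW hV) a))
  have hpf : ∀ a, PG (fun x => pd a (fun y => tau V y a b * φ y) x
      - (tau V x a b * φ x) * pd a (WW V) x) := fun a =>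
    pg_sub ((CM.H17.pgc_mul (pgc_tau hV a b) hφ).2 [a] (by simp))
      (CM.H63.pg_mul (CM.H63.pg_mul (pg_tau hV a b) (hφ.2 [] (by simp)))
        ((pgc_WW hV).2 [a] (by simp)))
  have h1 := wint_sum hV Finset.univ (fun a _ => hcf a) (fun a _ => hpf a)
  rw [Finset.sum_congr rfl fun a _ => h0 a, Finset.sum_const_zero] at h1
  have h2 : ∀ x, ∑ a, (pd a (fun y => tau V y a b * φ y) x
      - (tau V x a b * φ x) * pd a (WW V) x)
      = (∑ a, tau V x a b * pd a φ x) - x b * φ x := by
    intro x
    have e : ∀ a, pd a (fun y => tau V y a b * φ y) x - (tau V x a b * φ x) * pd a (WW V) x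
        = (pd a (fun y => tau V y a b) x - tau V x a b * pd a (WW V) x) * φ x
          + tau V x a b * pd a φ x := by
      intro a
      rw [CM.H63.pd_mul (hd a x) (hφd x)]
      ring
    rw [Finset.sum_congr rfl fun a _ => e a, Finset.sum_add_distrib, ← Finset.sum_mul,
      div_tau hV b x]
    ring
  rw [wint_congr h2, wint_sub hV] at h1
  · linarith
  · exact continuous_finsetSum _ fun a _ => (cont_of_pgc (pgc_tau hV a b)).mul (cont_pd hφ a)
  · exact pg_sum _ fun a _ => CM.H63.pg_mul (pg_tau hV a b) (hφ.2 [a] (by simp))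
  · exact (CM.H17.contDiff_coord (m := 0) b).continuous.mul (cont_of_pgc hφ)
  · exact CM.H63.pg_mul (CM.H63.pg_coord b) (hφ.2 [] (by simp))

theorem dirichlet {V φ ψ : E n → ℝ} (hV : VG V) (hφ : PGC 1 φ) (hψ : PGC 2 ψ) :
    wint (WW V) (GA (tau V) φ ψ) = wint (WW V) (fun x => - (φ x * LL (tau V) ψ x)) := by
  have hψb : ∀ b, PGC 1 (pd b ψ) := fun b => CM.H17.pgc_pd hψ b
  have hψ2 : ContDiff ℝ 2 ψ := hψ.1
  have h0 : ∀ b, wint (WW V) (fun x => ∑ a, tau V x a b * pd a (fun y => φ y * pd b ψ y) x)
      = wint (WW V) (fun x => x b * (φ x * pd b ψ x)) := fun b =>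
    stein hV (CM.H17.pgc_mul hφ (hψb b)) b
  have hφd : ∀ x, DifferentiableAt ℝ φ x := fun x => (hφ.1.differentiable (by norm_num)) x
  have hψd : ∀ b x, DifferentiableAt ℝ (pd b ψ) x := fun b x =>
    ((hψb b).1.differentiable (by norm_num)) x
  have c1 : ∀ b, Continuous (fun x => ∑ a, tau V x a b * pd a (fun y => φ y * pd b ψ y) x) :=
    fun b => continuous_finsetSum _ fun a _ =>
      (cont_of_pgc (pgc_tau hV a b)).mul (cont_pd (CM.H17.pgc_mul hφ (hψb b)) a)
  have g1 : ∀ b, PG (fun x => ∑ a, tau V x a b * pd a (fun y => φ y * pd b ψ y) x) :=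
    fun b => pg_sum _ fun a _ => CM.H63.pg_mul (pg_tau hV a b)
      ((CM.H17.pgc_mul hφ (hψb b)).2 [a] (by simp))
  have c2 : ∀ b, Continuous (fun x : E n => x b * (φ x * pd b ψ x)) := fun b =>
    (CM.H17.contDiff_coord (m := 0) b).continuous.mul ((cont_of_pgc hφ).mul (cont_of_pgc (hψb b)))
  have g2 : ∀ b, PG (fun x : E n => x b * (φ x * pd b ψ x)) := fun b =>
    CM.H63.pg_mul (CM.H63.pg_coord b) (CM.H63.pg_mul (hφ.2 [] (by simp)) ((hψb b).2 [] (by simp)))
  have s1 := wint_sum hV Finset.univ (fun b _ => c1 b) (fun b _ => g1 b)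
  have s2 := wint_sum hV Finset.univ (fun b _ => c2 b) (fun b _ => g2 b)
  have s3 : wint (WW V) (fun x => ∑ b, ∑ a, tau V x a b * pd a (fun y => φ y * pd b ψ y) x)
      = wint (WW V) (fun x => ∑ b, x b * (φ x * pd b ψ x)) := by
    rw [s1, s2]
    exact Finset.sum_congr rfl fun b _ => h0 b
  have e1 : ∀ x, ∑ b, ∑ a, tau V x a b * pd a (fun y => φ y * pd b ψ y) x
      = GA (tau V) φ ψ x + φ x * tr2 (tau V x) (hess ψ x) := by
    intro x
    unfold GA tr2
    have e : ∀ b a, tau V x a b * pd a (fun y => φ y * pd b ψ y) x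
        = tau V x a b * pd a φ x * pd b ψ x + φ x * (tau V x a b * hess ψ x a b) := by
      intro b a
      rw [CM.H63.pd_mul (hφd x) (hψd b x)]
      simp only [hess, Matrix.of_apply]
      ring
    rw [Finset.sum_comm]
    simp only [e, Finset.sum_add_distrib, Finset.mul_sum]
  have e2 : ∀ x, ∑ b, x b * (φ x * pd b ψ x) = φ x * eul ψ x := by
    intro x
    rw [CM.H63.eul_eq_sum, Finset.mul_sum]
    exact Finset.sum_congr rfl fun b _ => by ring
  have cG : Continuous (GA (tau V) φ ψ) := by
    unfold GA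
    exact continuous_finsetSum _ fun i _ => continuous_finsetSum _ fun j _ =>
      ((cont_of_pgc (pgc_tau hV i j)).mul (cont_pd hφ i)).mul (cont_of_pgc (hψb j))
  have pG : PG (GA (tau V) φ ψ) := by
    unfold GA
    exact pg_sum _ fun i _ => pg_sum _ fun j _ =>
      CM.H63.pg_mul (CM.H63.pg_mul (pg_tau hV i j) (hφ.2 [i] (by simp))) ((hψb j).2 [] (by simp))
  have cT : Continuous (fun x => φ x * tr2 (tau V x) (hess ψ x)) := by
    unfold tr2
    refine (cont_of_pgc hφ).mul (continuous_finsetSum _ fun i _ =>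
      continuous_finsetSum _ fun j _ => (cont_of_pgc (pgc_tau hV i j)).mul ?_)
    exact cont_pd (hψb j) i
  have pT : PG (fun x => φ x * tr2 (tau V x) (hess ψ x)) := by
    unfold tr2
    refine CM.H63.pg_mul (hφ.2 [] (by simp)) (pg_sum _ fun i _ => pg_sum _ fun j _ =>
      CM.H63.pg_mul (pg_tau hV i j) ?_)
    exact (hψb j).2 [i] (by simp)
  have cE : Continuous (fun x => φ x * eul ψ x) := by
    have : (fun x => φ x * eul ψ x) = fun x => ∑ b, x b * (φ x * pd b ψ x) := by
      funext x
      exact (e2 x).symm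
    rw [this]
    exact continuous_finsetSum _ fun b _ => c2 b
  have pE : PG (fun x => φ x * eul ψ x) := by
    have : (fun x => φ x * eul ψ x) = fun x => ∑ b, x b * (φ x * pd b ψ x) := by
      funext x
      exact (e2 x).symm
    rw [this]
    exact pg_sum _ fun b _ => g2 b
  rw [wint_congr e1, wint_congr e2, wint_add hV cG pG cT pT] at s3
  have e3 : ∀ x, - (φ x * LL (tau V) ψ x) = φ x * eul ψ x - φ x * tr2 (tau V x) (hess ψ x) := by
    intro x
    unfold LL
    ring
  rw [wint_congr e3, wint_sub hV cE pE cT pT]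
  linarith

end CM.H63
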