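import Pool.Agent.Helper63.MM.Inv

/-!
Project MM, helper63: row B4.TAU.
-/

open MeasureTheory

namespace CM.H63

variable {n : ℕ}

/-! ### polynomial growth -/

theorem pg_of_le {f : E n → ℝ} {C : ℝ} {k : ℕ} (h : ∀ x, |f x| ≤ C * (1 + ‖x‖) ^ k) : PG f :=
  ⟨C, k, h⟩

theorem pg_of_bdd {f : E n → ℝ} {C : ℝ} (h : ∀ x, |f x| ≤ C) : PG f :=
  ⟨C, 0, fun x => by simpa using h x⟩

theorem one_le_gr (x : E n) (k : ℕ) : 1 ≤ (1 + ‖x‖) ^ k :=
  one_le_pow₀ (by linarith [norm_nonneg x])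

theorem pg_nonneg {f : E n → ℝ} (h : PG f) :
    ∃ (C : ℝ) (k : ℕ), 0 ≤ C ∧ ∀ x, |f x| ≤ C * (1 + ‖x‖) ^ k := by
  obtain ⟨C, k, hC⟩ := h
  refine ⟨|C|, k, abs_nonneg C, fun x => (hC x).trans ?_⟩
  exact mul_le_mul_of_nonneg_right (le_abs_self C) (by have := one_le_gr x k; linarith)

theorem pg_add {f g : E n → ℝ} (hf : PG f) (hg : PG g) : PG (fun x => f x + g x) := by
  obtain ⟨C, k, hC0, hC⟩ := pg_nonneg hf
  obtain ⟨D, l, hD0, hD⟩ := pg_nonneg hg
  refine ⟨C + D, k + l, fun x => ?_⟩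
  have h1 : (1 + ‖x‖) ^ k ≤ (1 + ‖x‖) ^ (k + l) :=
    pow_le_pow_right₀ (by linarith [norm_nonneg x]) (Nat.le_add_right _ _)
  have h2 : (1 + ‖x‖) ^ l ≤ (1 + ‖x‖) ^ (k + l) :=
    pow_le_pow_right₀ (by linarith [norm_nonneg x]) (Nat.le_add_left _ _)
  calc |f x + g x| ≤ |f x| + |g x| := abs_add_le _ _
    _ ≤ C * (1 + ‖x‖) ^ k + D * (1 + ‖x‖) ^ l := add_le_add (hC x) (hD x)
    _ ≤ C * (1 + ‖x‖) ^ (k + l) + D * (1 + ‖x‖) ^ (k + l) := by gcongr
    _ = (C + D) * (1 + ‖x‖) ^ (k + l) := by ring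

theorem pg_neg {f : E n → ℝ} (hf : PG f) : PG (fun x => - f x) := by
  obtain ⟨C, k, hC⟩ := hf
  exact ⟨C, k, fun x => by rw [abs_neg]; exact hC x⟩

theorem pg_sub {f g : E n → ℝ} (hf : PG f) (hg : PG g) : PG (fun x => f x - g x) := by
  have := pg_add hf (pg_neg hg)
  simpa only [sub_eq_add_neg] using this

theorem pg_mul {f g : E n → ℝ} (hf : PG f) (hg : PG g) : PG (fun x => f x * g x) := by
  obtain ⟨C, k, hC0, hC⟩ := pg_nonneg hf
  obtain ⟨D, l, hD0, hD⟩ := pg_nonneg hg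
  refine ⟨C * D, k + l, fun x => ?_⟩
  calc |f x * g x| = |f x| * |g x| := abs_mul _ _
    _ ≤ (C * (1 + ‖x‖) ^ k) * (D * (1 + ‖x‖) ^ l) :=
        mul_le_mul (hC x) (hD x) (abs_nonneg _)
          (mul_nonneg hC0 (by have := one_le_gr x k; linarith))
    _ = C * D * (1 + ‖x‖) ^ (k + l) := by ring

theorem pg_const (c : ℝ) : PG (fun _ : E n => c) := pg_of_bdd (C := |c|) fun _ => le_refl _

theorem pg_sum {ι : Type*} (s : Finset ι) {f : ι → E n → ℝ} (hf : ∀ a ∈ s, PG (f a)) :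
    PG (fun x => ∑ a ∈ s, f a x) := by
  classical
  induction s using Finset.induction_on with
  | empty => simpa using pg_const (n := n) 0
  | insert a s ha ih =>
    have h1 := pg_add (hf a (Finset.mem_insert_self _ _))
      (ih fun b hb => hf b (Finset.mem_insert_of_mem hb))
    simpa only [Finset.sum_insert ha] using h1

theorem abs_coord_le (x : E n) (i : Fin n) : |x i| ≤ ‖x‖ := by
  have := PiLp.norm_apply_le x i
  simpa using this

theorem pg_coord (i : Fin n) : PG (fun x : E n => x i) :=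
  ⟨1, 1, fun x => by
    have := abs_coord_le x i
    have h0 := norm_nonneg x
    simp only [pow_one, one_mul]
    linarith⟩

theorem pgc_one {f : E n → ℝ} (hc : ContDiff ℝ 1 f) (h0 : PG f) (h1 : ∀ i, PG (pd i f)) :
    PGC 1 f := by
  refine ⟨by exact_mod_cast hc, fun l hl => ?_⟩
  match l, hl with
  | [], _ => exact h0
  | [i], _ => exact h1 i
  | _ :: _ :: _, h => simp at h

theorem PGC.cd {k : ℕ} {f : E n → ℝ} (h : PGC k f) : ContDiff ℝ k f := h.1

theorem PGC.pg {k : ℕ} {f : E n → ℝ} (h : PGC k f) : PG f := h.2 [] (by simp)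

theorem PGC.pg1 {k : ℕ} {f : E n → ℝ} (h : PGC (k + 1) f) (i : Fin n) : PG (pd i f) :=
  h.2 [i] (by simp)

theorem PGC.pg2 {k : ℕ} {f : E n → ℝ} (h : PGC (k + 2) f) (i j : Fin n) :
    PG (pd i (pd j f)) :=
  h.2 [i, j] (by simp)

/-! ### matrices -/

theorem lb_det_ne {a : ℝ} (ha : 0 < a) {G : Mt n} (h : LB a G) : G.det ≠ 0 := by
  intro h0
  obtain ⟨v, hv, hv0⟩ := Matrix.exists_mulVec_eq_zero_iff.2 h0
  have h1 := h v
  have h2 : ∑ i, ∑ j, v i * G i j * v j = 0 := by
    have : ∀ i, ∑ j, v i * G i j * v j = v i * (G.mulVec v) i := by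
      intro i
      simp only [Matrix.mulVec, dotProduct, Finset.mul_sum, mul_assoc]
    rw [Finset.sum_congr rfl fun i _ => this i, hv0]
    simp
  rw [h2] at h1
  have h3 : ∑ i, v i ^ 2 ≤ 0 := by
    by_contra hc
    push Not at hc
    have := mul_pos ha hc
    linarith
  apply hv
  funext i
  have h4 : v i ^ 2 ≤ 0 :=
    (Finset.single_le_sum (f := fun i => v i ^ 2) (fun j _ => sq_nonneg _)
      (Finset.mem_univ i)).trans h3
  have : v i = 0 := by nlinarith [sq_nonneg (v i)]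
  simpa using this

theorem lb_inv_entry {a : ℝ} (ha : 0 < a) {G : Mt n} (h : LB a G) (i j : Fin n) :
    |G⁻¹ i j| ≤ 1 / a := by
  have hd := lb_det_ne ha h
  have h1 := h (fun l => G⁻¹ l j)
  have h2 : ∑ i, ∑ l, G⁻¹ i j * G i l * G⁻¹ l j = G⁻¹ j j := by
    have e : ∀ i, ∑ l, G⁻¹ i j * G i l * G⁻¹ l j = G⁻¹ i j * (1 : Mt n) i j := by
      intro i
      have := congrFun (congrFun (Matrix.mul_nonsing_inv G (IsUnit.mk0 _ hd)) i) j
      rw [Matrix.mul_apply] at this
      rw [← this, Finset.mul_sum]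
      exact Finset.sum_congr rfl fun l _ => by ring
    rw [Finset.sum_congr rfl fun i _ => e i]
    simp [Matrix.one_apply]
  rw [h2] at h1
  have h3 : G⁻¹ j j ^ 2 ≤ ∑ l, G⁻¹ l j ^ 2 :=
    Finset.single_le_sum (f := fun l => G⁻¹ l j ^ 2) (fun _ _ => sq_nonneg _) (Finset.mem_univ j)
  have h4 : G⁻¹ i j ^ 2 ≤ ∑ l, G⁻¹ l j ^ 2 :=
    Finset.single_le_sum (f := fun l => G⁻¹ l j ^ 2) (fun _ _ => sq_nonneg _) (Finset.mem_univ i)
  have h5 : G⁻¹ j j ≤ 1 / a := by
    rw [le_div_iff₀ ha]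
    by_contra hc
    push Not at hc
    have hp : 0 < G⁻¹ j j := by
      by_contra hn
      push Not at hn
      have : G⁻¹ j j * a ≤ 0 := mul_nonpos_of_nonpos_of_nonneg hn ha.le
      linarith
    have : a * G⁻¹ j j ^ 2 ≤ G⁻¹ j j := (mul_le_mul_of_nonneg_left h3 ha.le).trans h1
    nlinarith
  have h6 : G⁻¹ i j ^ 2 ≤ (1 / a) ^ 2 := by
    have e1 : a * G⁻¹ i j ^ 2 ≤ 1 / a :=
      ((mul_le_mul_of_nonneg_left h4 ha.le).trans h1).trans h5
    have e2 : G⁻¹ i j ^ 2 ≤ (1 / a) / a := by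
      rw [le_div_iff₀ ha]
      linarith
    calc G⁻¹ i j ^ 2 ≤ (1 / a) / a := e2
      _ = (1 / a) ^ 2 := by ring
  exact abs_le_of_sq_le_sq h6 (by positivity)

/-! ### the potential -/

theorem hess_contDiff {k : ℕ} {V : E n → ℝ} (hV : ContDiff ℝ (k + 2 : ℕ) V) (i j : Fin n) :
    ContDiff ℝ k (fun y => hess V y i j) := by
  have h1 : ContDiff ℝ (k + 1 : ℕ) (pd j V) := contDiff_pd (k := k + 1) hV j
  exact contDiff_pd h1 i

theorem hess_symm {V : E n → ℝ} (hV : ContDiff ℝ 2 V) (x : E n) (i j : Fin n) :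
    hess V x i j = hess V x j i := pd_comm hV i j x

theorem vg_hess {V : E n → ℝ} (hV : VG V) (i j : Fin n) :
    ContDiff ℝ 1 (fun y => hess V y i j) := by
  have : ContDiff ℝ (1 + 2 : ℕ) V := hV.reg
  exact_mod_cast hess_contDiff (k := 1) this i j

theorem vg_det {V : E n → ℝ} (hV : VG V) (y : E n) : (hess V y).det ≠ 0 := by
  obtain ⟨a, ha, h⟩ := hV.pos
  exact lb_det_ne ha (h y)

theorem pd_tau {V : E n → ℝ} (hV : VG V) (k i j : Fin n) (x : E n) :
    pd k (fun y => tau V y i j) x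
      = - ∑ a, ∑ b, tau V x i a * pd k (pd a (pd b V)) x * tau V x b j :=
  pd_inv (G := hess V) (vg_hess hV) (vg_det hV) k i j x

theorem pg_tau {V : E n → ℝ} (hV : VG V) (i j : Fin n) : PG (fun x => tau V x i j) := by
  obtain ⟨a, ha, h⟩ := hV.pos
  exact pg_of_bdd fun x => lb_inv_entry ha (h x) i j

theorem pgc_tau {V : E n → ℝ} (hV : VG V) (i j : Fin n) : PGC 1 (fun x => tau V x i j) := by
  have hc : ContDiff ℝ 1 (fun x => tau V x i j) := by
    exact_mod_cast contDiff_inv (k := 1) (G := hess V) (fun a b => by exact_mod_cast vg_hess hV a b)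
      (vg_det hV) i j
  refine pgc_one hc (pg_tau hV i j) fun k => ?_
  have e : pd k (fun x => tau V x i j)
      = fun x => - ∑ a, ∑ b, tau V x i a * pd k (pd a (pd b V)) x * tau V x b j := by
    funext x
    exact pd_tau hV k i j x
  rw [e]
  exact pg_neg (pg_sum _ fun a _ => pg_sum _ fun b _ =>
    pg_mul (pg_mul (pg_tau hV i a) (hV.pg3 k a b)) (pg_tau hV b j))

theorem pd_WW {V : E n → ℝ} (hV : VG V) (k : Fin n) (x : E n) :
    pd k (WW V) x = (∑ a, x a * pd a (pd k V) x)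
      - ∑ a, ∑ b, tau V x a b * pd k (pd a (pd b V)) x := by
  have hV2 : ContDiff ℝ 2 V := hV.reg.of_le (by norm_num)
  have hVd : DifferentiableAt ℝ V x := (hV2.differentiable (by norm_num)) x
  have hp : ∀ a, DifferentiableAt ℝ (pd a V) x := fun a =>
    ((contDiff_pd (k := 1) (by exact_mod_cast hV2) a).differentiable (by norm_num)) x
  have hco : ∀ a : Fin n, DifferentiableAt ℝ (fun y : E n => y a) x := fun a =>
    (EuclideanSpace.proj (𝕜 := ℝ) a : E n →L[ℝ] ℝ).differentiableAt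
  have he : eul V = fun y => ∑ a, y a * pd a V y := by
    funext y
    exact eul_eq_sum V y
  have hed : DifferentiableAt ℝ (eul V) x := by
    rw [he]
    exact DifferentiableAt.fun_sum fun a _ => (hco a).mul (hp a)
  have h1 : pd k (eul V) x = pd k V x + ∑ a, x a * pd a (pd k V) x := by
    rw [he, pd_sum _ (f := fun a (y : E n) => y a * pd a V y) (fun a _ => (hco a).mul (hp a))]
    have e : ∀ a, pd k (fun y => y a * pd a V y) x
        = (if k = a then pd a V x else 0) + x a * pd a (pd k V) x := by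
      intro a
      rw [pd_mul (hco a) (hp a), pd_coord, pd_comm hV2 k a x]
      simp
    rw [Finset.sum_congr rfl fun a _ => e a, Finset.sum_add_distrib]
    simp
  have hG : ∀ i j, DifferentiableAt ℝ (fun y => hess V y i j) x := fun i j =>
    ((vg_hess hV i j).differentiable (by norm_num)) x
  have hdd : DifferentiableAt ℝ (fun y => (hess V y).det) x := by
    have := contDiff_det (k := 1) (G := hess V) (fun a b => by exact_mod_cast vg_hess hV a b)
    exact (this.differentiable (by norm_num)) x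
  have hld : DifferentiableAt ℝ (fun y => Real.log (hess V y).det) x := hdd.log (vg_det hV x)
  have h2 := pd_logdet hG hdd (vg_det hV x) k
  have h3 : pd k (WW V) x
      = pd k (eul V) x - pd k V x - pd k (fun y => Real.log (hess V y).det) x := by
    have e1 := pd_sub (f := fun y => eul V y - V y)
      (g := fun y => Real.log (hess V y).det) (x := x) (hed.sub hVd) hld k
    have e2 := pd_sub (f := eul V) (g := V) (x := x) hed hVd k
    unfold WW
    rw [e1, e2]
  rw [h3, h1, h2]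
  have h4 : ∀ i a, (hess V x)⁻¹ i a * pd k (fun y => hess V y a i) x
      = tau V x i a * pd k (pd i (pd a V)) x := by
    intro i a
    have : (fun y => hess V y a i) = pd i (pd a V) := by
      funext y
      exact hess_symm hV2 y a i
    rw [this]
    rfl
  simp only [h4]
  ring

theorem pg_WW {V : E n → ℝ} (hV : VG V) : PG (WW V) := by
  obtain ⟨K, hK⟩ := hV.gau
  refine ⟨|K| + 1, 2, fun x => ?_⟩
  have h1 := hK x
  have h2 : |WW V x| ≤ |WW V x - qn x| + |qn x| := by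
    have := abs_add_le (WW V x - qn x) (qn x)
    simpa using this
  have h3 : |qn x| = ‖x‖ ^ 2 / 2 := abs_of_nonneg (by unfold qn; positivity)
  have h0 := norm_nonneg x
  have hk := abs_nonneg K
  have hk2 := le_abs_self K
  nlinarith [mul_nonneg hk h0, mul_nonneg hk (mul_nonneg h0 h0)]

theorem contDiff_WW {V : E n → ℝ} (hV : VG V) : ContDiff ℝ 1 (WW V) := by
  have hV1 : ContDiff ℝ 1 V := hV.reg.of_le (by norm_num)
  have he : ContDiff ℝ 1 (eul V) := by
    unfold eul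
    exact ((hV.reg.fderiv_right (m := 2) (by norm_num)).of_le (by norm_num)).clm_apply contDiff_id
  have hdd : ContDiff ℝ 1 (fun y => (hess V y).det) := by
    exact_mod_cast contDiff_det (k := 1) (G := hess V) (fun a b => by exact_mod_cast vg_hess hV a b)
  unfold WW
  exact (he.sub hV1).sub (hdd.log (vg_det hV))

theorem pgc_WW {V : E n → ℝ} (hV : VG V) : PGC 1 (WW V) := by
  refine pgc_one (contDiff_WW hV) (pg_WW hV) fun k => ?_
  have e : pd k (WW V) = fun x => (∑ a, x a * pd a (pd k V) x)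
      - ∑ a, ∑ b, tau V x a b * pd k (pd a (pd b V)) x := by
    funext x
    exact pd_WW hV k x
  rw [e]
  obtain ⟨M, hM⟩ := hV.bdh
  refine pg_sub (pg_sum _ fun a _ => pg_mul (pg_coord a) (pg_of_bdd (C := M) fun x => hM x a k))
    (pg_sum _ fun a _ => pg_sum _ fun b _ => pg_mul (pg_tau hV a b) (hV.pg3 k a b))

end CM.H63
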