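import Pool.Agent.Helper63.MM.Stein
import Pool.Agent.Helper12.MM.Defs

/-!
Project MM, helper63: `ST_STEIN`, `ST_SYM`.
-/

open MeasureTheory

namespace CM.H63

variable {n : ℕ}

theorem vg_mk {V : E n → ℝ} {M a K : ℝ} (hM : H2 3 M V) (ha : 0 < a)
    (hl : ∀ x, LB a (hess V x)) (hK : GW K (WW V)) : VG V where
  reg := hM.1.of_le (by norm_num)
  pos := ⟨a, ha, hl⟩
  bdh := ⟨M, fun x i j => ((hM.2 i j).2 [] (by simp)).1 x⟩
  pg3 := fun i j k => pg_of_bdd (C := M) fun x => ((hM.2 j k).2 [i] (by simp)).1 x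
  gau := ⟨K, hK⟩

theorem vg_of_sol {F V : E n → ℝ} {c K R0 : ℝ} (hF : FOK c K R0 F) (h : Sol F V) : VG V := by
  obtain ⟨M, hM⟩ := h.reg
  obtain ⟨a, ha, hl⟩ := h.pos
  refine vg_mk (K := K) hM ha hl fun x => ?_
  rw [h.eq x]
  have h1 : |F x| ≤ K := (hF.bd.2 [] (by simp)).1 x
  rw [add_sub_cancel_left]
  exact h1

theorem vg_of_vok {V : E n → ℝ} {c K : ℝ} (h : VOK c K V) : VG V := by
  obtain ⟨M, hM⟩ := h.h2
  exact vg_mk hM h.c_pos h.lo h.gau

/-- a `C²` function with bounded second derivatives is in `PGC 2`. -/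
theorem pgc2_of_bdd {Ψ : E n → ℝ} {M : ℝ} (h : ContDiff ℝ 2 Ψ)
    (hM : ∀ x i j, |pd i (pd j Ψ) x| ≤ M) : PGC 2 Ψ := by
  have h1 : ∀ j, PG (pd j Ψ) := fun j =>
    CM.H17.pg_of_pd (by exact_mod_cast contDiff_pd (k := 1) (by exact_mod_cast h) j)
      fun i => pg_of_bdd fun x => hM x i j
  have h0 : PG Ψ := CM.H17.pg_of_pd (h.of_le (by norm_num)) h1
  refine ⟨by exact_mod_cast h, fun l hl => ?_⟩
  match l, hl with
  | [], _ => exact h0
  | [i], _ => exact h1 i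
  | [i, j], _ => exact pg_of_bdd fun x => hM x i j
  | _ :: _ :: _ :: _, h => simp at h

theorem st_STEIN : ST_STEIN := by
  intro n F V Ψ M ⟨c, K, R0, hF⟩ hS hΨ hM
  have hV := vg_of_sol hF hS
  have hP := pgc2_of_bdd hΨ hM
  have hb : ∀ b, PGC 1 (pd b Ψ) := fun b => CM.H17.pgc_pd hP b
  have e1 : ∀ x, eul Ψ x = ∑ b, x b * pd b Ψ x := fun x => eul_eq_sum Ψ x
  have e2 : ∀ x, tr2 (tau V x) (hess Ψ x) = ∑ b, ∑ a, tau V x a b * pd a (pd b Ψ) x := by
    intro x
    unfold tr2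
    rw [Finset.sum_comm]
    rfl
  have c1 : ∀ b, Continuous (fun x : E n => x b * pd b Ψ x) := fun b =>
    (CM.H17.contDiff_coord (m := 0) b).continuous.mul (cont_of_pgc (hb b))
  have g1 : ∀ b, PG (fun x : E n => x b * pd b Ψ x) := fun b =>
    pg_mul (pg_coord b) ((hb b).2 [] (by simp))
  have c2 : ∀ b, Continuous (fun x : E n => ∑ a, tau V x a b * pd a (pd b Ψ) x) := fun b =>
    continuous_finsetSum _ fun a _ => (cont_of_pgc (pgc_tau hV a b)).mul (cont_pd (hb b) a)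
  have g2 : ∀ b, PG (fun x : E n => ∑ a, tau V x a b * pd a (pd b Ψ) x) := fun b =>
    pg_sum _ fun a _ => pg_mul (pg_tau hV a b) ((hb b).2 [a] (by simp))
  have f1 : (fun x => eul Ψ x) = fun x => ∑ b, x b * pd b Ψ x := funext e1
  have f2 : (fun x => tr2 (tau V x) (hess Ψ x))
      = fun x => ∑ b, ∑ a, tau V x a b * pd a (pd b Ψ) x := funext e2
  have i1 : Integrable (fun x : E n => eul Ψ x * Real.exp (- WW V x)) := by
    have := wint_int (f := fun x => eul Ψ x) hV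
      (by rw [f1]; exact continuous_finsetSum _ fun b _ => c1 b)
      (by rw [f1]; exact pg_sum _ fun b _ => g1 b)
    exact this
  have i2 : Integrable (fun x : E n => tr2 (tau V x) (hess Ψ x) * Real.exp (- WW V x)) := by
    have := wint_int (f := fun x => tr2 (tau V x) (hess Ψ x)) hV
      (by rw [f2]; exact continuous_finsetSum _ fun b _ => c2 b)
      (by rw [f2]; exact pg_sum _ fun b _ => g2 b)
    exact this
  refine ⟨i1, i2, ?_⟩
  have t1 : wint (WW V) (fun x => eul Ψ x) = wint (WW V) (fun x => tr2 (tau V x) (hess Ψ x)) := by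
    rw [f1, f2, wint_sum hV _ (fun b _ => c1 b) (fun b _ => g1 b),
      wint_sum hV _ (fun b _ => c2 b) (fun b _ => g2 b)]
    exact Finset.sum_congr rfl fun b _ => (stein hV (hb b) b).symm
  exact t1

theorem pgc_of_pc {k m : ℕ} {C : ℝ} {f : E n → ℝ} (h : PC k C m f) : PGC k f :=
  ⟨h.1, fun l hl => ⟨C, m, h.2 l hl⟩⟩

theorem st_SYM : ST_SYM := by
  intro n c K V f g C m hV hf hg
  have h := dirichlet (vg_of_vok hV) (pgc_of_pc hf) (pgc_of_pc hg)
  rw [wint_neg] at h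
  exact h

end CM.H63
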