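import Pool.Agent.Helper44.CM.Interface
import Pool.Agent.Helper63.MM.Defs4

/-!
Project MM, helper63: calculus with `pd`, derivative of the determinant and of the inverse.
-/

open MeasureTheory

namespace CM.H63

variable {n : ℕ}

theorem pd_add {f g : E n → ℝ} {x : E n} (hf : DifferentiableAt ℝ f x)
    (hg : DifferentiableAt ℝ g x) (i : Fin n) :
    pd i (fun y => f y + g y) x = pd i f x + pd i g x := by
  unfold pd
  rw [fderiv_fun_add hf hg]
  rfl

theorem pd_sub {f g : E n → ℝ} {x : E n} (hf : DifferentiableAt ℝ f x)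
    (hg : DifferentiableAt ℝ g x) (i : Fin n) :
    pd i (fun y => f y - g y) x = pd i f x - pd i g x := by
  unfold pd
  rw [fderiv_fun_sub hf hg]
  rfl

theorem pd_neg {f : E n → ℝ} {x : E n} (i : Fin n) :
    pd i (fun y => - f y) x = - pd i f x := by
  unfold pd
  rw [fderiv_fun_neg]
  rfl

theorem pd_mul {f g : E n → ℝ} {x : E n} (hf : DifferentiableAt ℝ f x)
    (hg : DifferentiableAt ℝ g x) (i : Fin n) :
    pd i (fun y => f y * g y) x = pd i f x * g x + f x * pd i g x := by
  unfold pd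
  rw [fderiv_fun_mul hf hg]
  simp only [add_apply, smul_apply, smul_eq_mul]
  ring

theorem pd_const (c : ℝ) (x : E n) (i : Fin n) : pd i (fun _ => c) x = 0 := by
  unfold pd
  simp

theorem pd_const_mul {f : E n → ℝ} {x : E n} (hf : DifferentiableAt ℝ f x) (c : ℝ)
    (i : Fin n) : pd i (fun y => c * f y) x = c * pd i f x := by
  rw [pd_mul (differentiableAt_const c) hf, pd_const]
  ring

theorem pd_sum {ι : Type*} (s : Finset ι) {f : ι → E n → ℝ} {x : E n}
    (hf : ∀ a ∈ s, DifferentiableAt ℝ (f a) x) (i : Fin n) :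
    pd i (fun y => ∑ a ∈ s, f a y) x = ∑ a ∈ s, pd i (f a) x := by
  unfold pd
  rw [fderiv_fun_sum hf]
  simp

theorem pd_coord (i j : Fin n) (x : E n) :
    pd i (fun y : E n => y j) x = if i = j then 1 else 0 := by
  unfold pd
  have h : HasFDerivAt (fun y : E n => y j)
      (EuclideanSpace.proj (𝕜 := ℝ) j : E n →L[ℝ] ℝ) x :=
    (EuclideanSpace.proj (𝕜 := ℝ) j : E n →L[ℝ] ℝ).hasFDerivAt
  rw [h.fderiv]
  simp [eq_comm, PiLp.single_apply]

theorem eq_sum_single (x : E n) :
    x = ∑ i, x i • (EuclideanSpace.single i (1 : ℝ) : E n) := by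
  ext j
  simp [Pi.single_apply]

theorem eul_eq_sum (f : E n → ℝ) (x : E n) : eul f x = ∑ i, x i * pd i f x := by
  unfold eul pd
  have h := congrArg (fun z => fderiv ℝ f x z) (eq_sum_single x)
  simp only [map_sum, map_smul, smul_eq_mul] at h
  exact h

theorem contDiff_pd {k : ℕ} {f : E n → ℝ} (hf : ContDiff ℝ (k + 1 : ℕ) f) (i : Fin n) :
    ContDiff ℝ k (pd i f) := by
  unfold pd
  have h1 : ContDiff ℝ k (fderiv ℝ f) := hf.fderiv_right (by norm_cast)
  exact h1.clm_apply contDiff_const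

theorem pd_comm {f : E n → ℝ} (hf : ContDiff ℝ 2 f) (i j : Fin n) (x : E n) :
    pd i (pd j f) x = pd j (pd i f) x := by
  unfold pd
  have h1 : Differentiable ℝ (fderiv ℝ f) := (hf.fderiv_right (m := 1) (by norm_num)).differentiable (by norm_num)
  have e : ∀ a b : E n, fderiv ℝ (fun y => fderiv ℝ f y a) x b = fderiv ℝ (fderiv ℝ f) x b a := by
    intro a b
    have := ((h1 x).hasFDerivAt.clm_apply (hasFDerivAt_const a x)).fderiv
    rw [this]
    simp
  rw [e, e]
  exact (hf.contDiffAt.isSymmSndFDerivAt (by simp)).eq _ _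

theorem pd_prod {ι : Type*} [DecidableEq ι] (s : Finset ι) {f : ι → E n → ℝ} {x : E n}
    (hf : ∀ a ∈ s, DifferentiableAt ℝ (f a) x) (i : Fin n) :
    pd i (fun y => ∏ a ∈ s, f a y) x = ∑ a ∈ s, (∏ b ∈ s.erase a, f b x) * pd i (f a) x := by
  have h := HasFDerivAt.finsetProd (u := s) (g := f) (x := x)
    (g' := fun a => fderiv ℝ (f a) x) (fun a ha => (hf a ha).hasFDerivAt)
  unfold pd
  rw [show (fun y => ∏ a ∈ s, f a y) = (fun y => ∏ a ∈ s, f a y) from rfl, h.fderiv]
  simp

/-- Jacobi's formula. -/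
theorem pd_det {G : E n → Mt n} {x : E n} (hG : ∀ i j, DifferentiableAt ℝ (fun y => G y i j) x)
    (k : Fin n) :
    pd k (fun y => (G y).det) x
      = ∑ i, ∑ a, (G x).adjugate i a * pd k (fun y => G y a i) x := by
  have h1 : ∀ i, (∑ a, (G x).adjugate i a * pd k (fun y => G y a i) x)
      = ((G x).updateCol i (fun a => pd k (fun y => G y a i) x)).det := by
    intro i
    rw [← Matrix.cramer_apply, Matrix.cramer_eq_adjugate_mulVec]
    rfl
  rw [Finset.sum_congr rfl fun i _ => h1 i]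
  have hdp : ∀ σ : Equiv.Perm (Fin n), DifferentiableAt ℝ (fun y => ∏ i, G y (σ i) i) x :=
    fun σ => (HasFDerivAt.finsetProd (u := Finset.univ) (g := fun i y => G y (σ i) i)
      (g' := fun i => fderiv ℝ (fun y => G y (σ i) i) x)
      (fun i _ => (hG (σ i) i).hasFDerivAt)).differentiableAt
  have h2 : (fun y => (G y).det)
      = fun y => ∑ σ : Equiv.Perm (Fin n), ((Equiv.Perm.sign σ : ℤ) : ℝ) * ∏ i, G y (σ i) i := by
    funext y
    rw [Matrix.det_apply']
  rw [h2, pd_sum _ (fun σ _ => (hdp σ).const_mul _)]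
  have h3 : ∀ i, ((G x).updateCol i (fun a => pd k (fun y => G y a i) x)).det
      = ∑ σ : Equiv.Perm (Fin n), ((Equiv.Perm.sign σ : ℤ) : ℝ) *
        ((∏ j ∈ Finset.univ.erase i, G x (σ j) j) * pd k (fun y => G y (σ i) i) x) := by
    intro i
    rw [Matrix.det_apply']
    refine Finset.sum_congr rfl fun σ _ => ?_
    congr 1
    rw [← Finset.mul_prod_erase Finset.univ _ (Finset.mem_univ i), mul_comm]
    congr 1
    · refine Finset.prod_congr rfl fun j hj => ?_
      rw [Matrix.updateCol_ne (Finset.ne_of_mem_erase hj)]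
    · rw [Matrix.updateCol_self]
  rw [Finset.sum_congr rfl fun i _ => h3 i, Finset.sum_comm]
  refine Finset.sum_congr rfl fun σ _ => ?_
  rw [pd_const_mul (hdp σ), pd_prod _ (fun i _ => hG (σ i) i), Finset.mul_sum]

end CM.H63
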