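import Pool.Agent.Helper63.MM.Pair

/-!
Project MM, helper63: row B4.PAIR (`ST_PAIR`), integrated form.
-/

open MeasureTheory

namespace CM.H63

variable {n : ℕ}

theorem Nf_entry (V h : E n → ℝ) (x : E n) (i j : Fin n) :
    Nf V h x i j = ∑ b, qf V h i b x * tau V x b j := by
  unfold Nf qf
  rw [Matrix.mul_apply]
  refine Finset.sum_congr rfl fun b _ => ?_
  rw [Matrix.mul_apply]

theorem pgc_hess {k : ℕ} {h : E n → ℝ} (hh : PGC (k + 2) h) (i j : Fin n) :
    PGC k (fun x => hess h x i j) := CM.H17.pgc_pd (CM.H17.pgc_pd hh j) i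

theorem pgc_qf {V h : E n → ℝ} (hV : VG V) (hh : PGC 3 h) (i b : Fin n) :
    PGC 1 (qf V h i b) := by
  unfold qf
  exact CM.H17.pgc_sum _ fun a _ => CM.H17.pgc_mul (pgc_tau hV i a) (pgc_hess (k := 1) hh a b)

theorem cont_pg_vf {V h : E n → ℝ} (hV : VG V) (hh : PGC 3 h) (i : Fin n) :
    Continuous (vf V h i) ∧ PG (vf V h i) := by
  have hh3 : ContDiff ℝ 3 h := by exact_mod_cast hh.1
  have e : vf V h i = fun x => (∑ b, x b * qf V h i b x)
      - ∑ b, ∑ j, tau V x j b * pd j (qf V h i b) x := by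
    funext x
    exact (divN hV hh3 i x).symm
  rw [e]
  constructor
  · refine Continuous.sub (continuous_finsetSum _ fun b _ =>
      (CM.H17.contDiff_coord (m := 0) b).continuous.mul (cont_of_pgc (pgc_qf hV hh i b))) ?_
    exact continuous_finsetSum _ fun b _ => continuous_finsetSum _ fun j _ =>
      (cont_of_pgc (pgc_tau hV j b)).mul (cont_pd (pgc_qf hV hh i b) j)
  · refine pg_sub (pg_sum _ fun b _ => pg_mul (pg_coord b) ((pgc_qf hV hh i b).2 [] (by simp))) ?_
    exact pg_sum _ fun b _ => pg_sum _ fun j _ =>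
      pg_mul (pg_tau hV j b) ((pgc_qf hV hh i b).2 [j] (by simp))

theorem cont_pg_Nf {V h : E n → ℝ} (hV : VG V) (hh : PGC 3 h) (i j : Fin n) :
    Continuous (fun x => Nf V h x i j) ∧ PG (fun x => Nf V h x i j) := by
  have e : (fun x => Nf V h x i j) = fun x => ∑ b, qf V h i b x * tau V x b j := by
    funext x
    exact Nf_entry V h x i j
  rw [e]
  constructor
  · exact continuous_finsetSum _ fun b _ =>
      (cont_of_pgc (pgc_qf hV hh i b)).mul (cont_of_pgc (pgc_tau hV b j))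
  · exact pg_sum _ fun b _ => pg_mul ((pgc_qf hV hh i b).2 [] (by simp)) (pg_tau hV b j)

/-- Stein's identity for `N`: the divergence of `N` is `v`. -/
theorem steinN {V h φ : E n → ℝ} (hV : VG V) (hh : PGC 3 h) (hφ : PGC 1 φ) (i : Fin n) :
    wint (WW V) (fun x => ∑ j, Nf V h x i j * pd j φ x)
      = wint (WW V) (fun x => vf V h i x * φ x) := by
  have hV2 : ContDiff ℝ 2 V := hV.reg.of_le (by norm_num)
  have hh3 : ContDiff ℝ 3 h := by exact_mod_cast hh.1
  have hq : ∀ b, PGC 1 (qf V h i b) := fun b => pgc_qf hV hh i b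
  have h0 : ∀ b, wint (WW V) (fun x => ∑ a, tau V x a b * pd a (fun y => φ y * qf V h i b y) x)
      = wint (WW V) (fun x => x b * (φ x * qf V h i b x)) := fun b =>
    stein hV (CM.H17.pgc_mul hφ (hq b)) b
  have hφd : ∀ x, DifferentiableAt ℝ φ x := fun x => (hφ.1.differentiable (by norm_num)) x
  have hqd : ∀ b x, DifferentiableAt ℝ (qf V h i b) x := fun b x =>
    ((hq b).1.differentiable (by norm_num)) x
  have c1 : ∀ b, Continuous
      (fun x => ∑ a, tau V x a b * pd a (fun y => φ y * qf V h i b y) x) :=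
    fun b => continuous_finsetSum _ fun a _ =>
      (cont_of_pgc (pgc_tau hV a b)).mul (cont_pd (CM.H17.pgc_mul hφ (hq b)) a)
  have g1 : ∀ b, PG (fun x => ∑ a, tau V x a b * pd a (fun y => φ y * qf V h i b y) x) :=
    fun b => pg_sum _ fun a _ => pg_mul (pg_tau hV a b)
      ((CM.H17.pgc_mul hφ (hq b)).2 [a] (by simp))
  have c2 : ∀ b, Continuous (fun x : E n => x b * (φ x * qf V h i b x)) := fun b =>
    (CM.H17.contDiff_coord (m := 0) b).continuous.mul ((cont_of_pgc hφ).mul (cont_of_pgc (hq b)))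
  have g2 : ∀ b, PG (fun x : E n => x b * (φ x * qf V h i b x)) := fun b =>
    pg_mul (pg_coord b) (pg_mul (hφ.2 [] (by simp)) ((hq b).2 [] (by simp)))
  have s3 : wint (WW V) (fun x => ∑ b, ∑ a, tau V x a b * pd a (fun y => φ y * qf V h i b y) x)
      = wint (WW V) (fun x => ∑ b, x b * (φ x * qf V h i b x)) := by
    rw [wint_sum hV Finset.univ (fun b _ => c1 b) (fun b _ => g1 b),
      wint_sum hV Finset.univ (fun b _ => c2 b) (fun b _ => g2 b)]
    exact Finset.sum_congr rfl fun b _ => h0 b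
  have e1 : ∀ x, ∑ b, ∑ a, tau V x a b * pd a (fun y => φ y * qf V h i b y) x
      = (∑ j, Nf V h x i j * pd j φ x)
        + φ x * ∑ b, ∑ j, tau V x j b * pd j (qf V h i b) x := by
    intro x
    have e : ∀ b a, tau V x a b * pd a (fun y => φ y * qf V h i b y) x
        = qf V h i b x * tau V x b a * pd a φ x
          + φ x * (tau V x a b * pd a (qf V h i b) x) := by
      intro b a
      rw [pd_mul (hφd x) (hqd b x), tau_symm hV2 x b a]
      ring
    simp only [e, Finset.sum_add_distrib]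
    congr 1
    · rw [Finset.sum_comm]
      refine Finset.sum_congr rfl fun j _ => ?_
      rw [Nf_entry, Finset.sum_mul]
    · simp only [Finset.mul_sum]
  have e2 : ∀ x, ∑ b, x b * (φ x * qf V h i b x)
      = vf V h i x * φ x + φ x * ∑ b, ∑ j, tau V x j b * pd j (qf V h i b) x := by
    intro x
    rw [← divN hV hh3 i x]
    have e : ∑ b, x b * (φ x * qf V h i b x) = φ x * ∑ b, x b * qf V h i b x := by
      rw [Finset.mul_sum]
      exact Finset.sum_congr rfl fun b _ => by ring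
    rw [e]
    ring
  obtain ⟨cv, gv⟩ := cont_pg_vf hV hh i
  have cN : Continuous (fun x => ∑ j, Nf V h x i j * pd j φ x) :=
    continuous_finsetSum _ fun j _ => (cont_pg_Nf hV hh i j).1.mul (cont_pd hφ j)
  have gN : PG (fun x => ∑ j, Nf V h x i j * pd j φ x) :=
    pg_sum _ fun j _ => pg_mul (cont_pg_Nf hV hh i j).2 (hφ.2 [j] (by simp))
  have cR : Continuous (fun x => φ x * ∑ b, ∑ j, tau V x j b * pd j (qf V h i b) x) :=
    (cont_of_pgc hφ).mul (continuous_finsetSum _ fun b _ => continuous_finsetSum _ fun j _ =>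
      (cont_of_pgc (pgc_tau hV j b)).mul (cont_pd (hq b) j))
  have gR : PG (fun x => φ x * ∑ b, ∑ j, tau V x j b * pd j (qf V h i b) x) :=
    pg_mul (hφ.2 [] (by simp)) (pg_sum _ fun b _ => pg_sum _ fun j _ =>
      pg_mul (pg_tau hV j b) ((hq b).2 [j] (by simp)))
  have cV : Continuous (fun x => vf V h i x * φ x) := cv.mul (cont_of_pgc hφ)
  have gV : PG (fun x => vf V h i x * φ x) := pg_mul gv (hφ.2 [] (by simp))
  rw [wint_congr e1, wint_congr e2, wint_add hV cN gN cR gR, wint_add hV cV gV cR gR] at s3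
  linarith

theorem pgc_eul {Ψ : E n → ℝ} (hΨ : PGC 2 Ψ) : PGC 1 (eul Ψ) := by
  have e : eul Ψ = fun x => ∑ b, x b * pd b Ψ x := by
    funext x
    exact eul_eq_sum Ψ x
  rw [e]
  exact CM.H17.pgc_sum _ fun b _ => CM.H17.pgc_mul (CM.H17.pgc_coord 1 b) (CM.H17.pgc_pd hΨ b)

theorem pd_eul {Ψ : E n → ℝ} (hΨ : ContDiff ℝ 2 Ψ) (i : Fin n) (x : E n) :
    pd i (eul Ψ) x = pd i Ψ x + ∑ b, x b * hess Ψ x i b := by
  have hp : ∀ a, DifferentiableAt ℝ (pd a Ψ) x := fun a =>
    ((contDiff_pd (k := 1) (by exact_mod_cast hΨ) a).differentiable (by norm_num)) x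
  have hco : ∀ a : Fin n, DifferentiableAt ℝ (fun y : E n => y a) x := fun a =>
    (EuclideanSpace.proj (𝕜 := ℝ) a : E n →L[ℝ] ℝ).differentiableAt
  have he : eul Ψ = fun y => ∑ a, y a * pd a Ψ y := by
    funext y
    exact eul_eq_sum Ψ y
  rw [he, pd_sum _ (f := fun b (y : E n) => y b * pd b Ψ y) (fun b _ => (hco b).mul (hp b))]
  have e : ∀ b, pd i (fun y => y b * pd b Ψ y) x
      = (if i = b then pd b Ψ x else 0) + x b * hess Ψ x i b := by
    intro b
    rw [pd_mul (hco b) (hp b), pd_coord]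
    simp [hess]
  rw [Finset.sum_congr rfl fun b _ => e b, Finset.sum_add_distrib]
  simp

/-- (b) for `Ψ` of polynomial growth and compactly supported `h`. -/
theorem pair_pg {V h Ψ : E n → ℝ} (hV : VG V) (hV4 : ContDiff ℝ 4 V) (hh : ContDiff ℝ 4 h)
    (hc : HasCompactSupport h) (hΨ : PGC 2 Ψ) :
    wint (WW V) (fun x => gf V h x * eul Ψ x)
      = wint (WW V) (fun x => tr2 (hess Ψ x) (Nf V h x) +
        ∑ i, ∑ j, hess Ψ x i j * x i * vf V h j x) := by
  have hΨ2 : ContDiff ℝ 2 Ψ := hΨ.1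
  have hh3 : PGC 3 h := pgc_of_compact (hh.of_le (by norm_num)) hc
  have hfc : ContDiff ℝ 2 (AK (tau V) 1 h) :=
    contDiff_AK (k := 2) (by exact_mod_cast hV4) (vg_det hV) (by exact_mod_cast hh)
  have hfs : HasCompactSupport (AK (tau V) 1 h) := hcs_of_off hc fun x hx =>
    (AK_off (tau V) 1 hx).eq_of_nhds
  have hf : PGC 2 (AK (tau V) 1 h) := pgc_of_compact hfc hfs
  have hE : PGC 1 (eul Ψ) := pgc_eul hΨ
  have hd := dirichlet hV hE hf
  have e0 : ∀ x, gf V h x * eul Ψ x = - (eul Ψ x * LL (tau V) (AK (tau V) 1 h) x) := by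
    intro x
    unfold gf
    rw [AK]
    ring
  rw [wint_congr e0, ← hd]
  have e1 : ∀ x, GA (tau V) (eul Ψ) (AK (tau V) 1 h) x
      = (∑ i, vf V h i x * pd i Ψ x) + ∑ i, ∑ j, hess Ψ x i j * x i * vf V h j x := by
    intro x
    have e : ∀ i, ∑ j, tau V x i j * pd i (eul Ψ) x * pd j (AK (tau V) 1 h) x
        = vf V h i x * pd i Ψ x + ∑ b, hess Ψ x b i * x b * vf V h i x := by
      intro i
      have e2 : ∑ j, tau V x i j * pd i (eul Ψ) x * pd j (AK (tau V) 1 h) x
          = pd i (eul Ψ) x * vf V h i x := by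
        unfold vf
        rw [Finset.mul_sum]
        exact Finset.sum_congr rfl fun j _ => by ring
      rw [e2, pd_eul hΨ2, add_mul, Finset.sum_mul]
      congr 1
      · ring
      · refine Finset.sum_congr rfl fun b _ => ?_
        rw [hess_symm hΨ2 x b i]
        ring
    unfold GA
    rw [Finset.sum_congr rfl fun i _ => e i, Finset.sum_add_distrib]
    congr 1
    exact Finset.sum_comm
  have hv : ∀ i, Continuous (vf V h i) ∧ PG (vf V h i) := fun i => cont_pg_vf hV hh3 i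
  have hN : ∀ i j, Continuous (fun x => Nf V h x i j) ∧ PG (fun x => Nf V h x i j) :=
    fun i j => cont_pg_Nf hV hh3 i j
  have hp1 : ∀ i, PGC 1 (pd i Ψ) := fun i => CM.H17.pgc_pd hΨ i
  have hH : ∀ i j, Continuous (fun x => hess Ψ x i j) ∧ PG (fun x => hess Ψ x i j) :=
    fun i j => ⟨cont_pd (hp1 j) i, (hp1 j).2 [i] (by simp)⟩
  have cA : ∀ i, Continuous (fun x => vf V h i x * pd i Ψ x) := fun i =>
    (hv i).1.mul (cont_of_pgc (hp1 i))
  have gA : ∀ i, PG (fun x => vf V h i x * pd i Ψ x) := fun i =>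
    pg_mul (hv i).2 ((hp1 i).2 [] (by simp))
  have cB : Continuous (fun x : E n => ∑ i, ∑ j, hess Ψ x i j * x i * vf V h j x) :=
    continuous_finsetSum _ fun i _ => continuous_finsetSum _ fun j _ =>
      ((hH i j).1.mul (CM.H17.contDiff_coord (m := 0) i).continuous).mul (hv j).1
  have gB : PG (fun x : E n => ∑ i, ∑ j, hess Ψ x i j * x i * vf V h j x) :=
    pg_sum _ fun i _ => pg_sum _ fun j _ => pg_mul (pg_mul (hH i j).2 (pg_coord i)) (hv j).2
  have cC : ∀ i, Continuous (fun x => ∑ j, Nf V h x i j * pd j (pd i Ψ) x) := fun i =>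
    continuous_finsetSum _ fun j _ => (hN i j).1.mul (cont_pd (hp1 i) j)
  have gC : ∀ i, PG (fun x => ∑ j, Nf V h x i j * pd j (pd i Ψ) x) := fun i =>
    pg_sum _ fun j _ => pg_mul (hN i j).2 ((hp1 i).2 [j] (by simp))
  have e3 : ∀ x, tr2 (hess Ψ x) (Nf V h x) = ∑ i, ∑ j, Nf V h x i j * pd j (pd i Ψ) x := by
    intro x
    unfold tr2
    refine Finset.sum_congr rfl fun i _ => Finset.sum_congr rfl fun j _ => ?_
    rw [hess_symm hΨ2 x i j]
    simp only [hess, Matrix.of_apply]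
    ring
  have t1 : wint (WW V) (fun x => ∑ i, vf V h i x * pd i Ψ x)
      = wint (WW V) (fun x => tr2 (hess Ψ x) (Nf V h x)) := by
    rw [wint_congr e3, wint_sum hV _ (fun i _ => cA i) (fun i _ => gA i),
      wint_sum hV _ (fun i _ => cC i) (fun i _ => gC i)]
    exact Finset.sum_congr rfl fun i _ => (steinN hV hh3 (hp1 i) i).symm
  have cD : Continuous (fun x => tr2 (hess Ψ x) (Nf V h x)) := by
    unfold tr2
    exact continuous_finsetSum _ fun i _ => continuous_finsetSum _ fun j _ =>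
      (hH i j).1.mul (hN i j).1
  have gD : PG (fun x => tr2 (hess Ψ x) (Nf V h x)) := by
    unfold tr2
    exact pg_sum _ fun i _ => pg_sum _ fun j _ => pg_mul (hH i j).2 (hN i j).2
  rw [wint_congr e1, wint_add hV (continuous_finsetSum _ fun i _ => cA i)
    (pg_sum _ fun i _ => gA i) cB gB, wint_add hV cD gD cB gB, t1]

theorem st_PAIR : ST_PAIR := by
  intro n F V h Ψ ⟨c, K, R0, hF⟩ hS hh hc hΨ
  have hV := vg_of_sol hF hS
  obtain ⟨M, hM⟩ := hS.reg
  have hV4 : ContDiff ℝ 4 V := hM.1.of_le (by norm_num)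
  -- cut-off
  obtain ⟨R, hR0, hR⟩ : ∃ R : ℝ, 0 < R ∧ tsupport h ⊆ Metric.ball 0 R := by
    obtain ⟨R, hR⟩ := hc.isCompact.isBounded.subset_ball 0
    exact ⟨max R 1, by positivity, hR.trans (Metric.ball_subset_ball (le_max_left _ _))⟩
  let χ : ContDiffBump (0 : E n) := ⟨R, R + 1, hR0, by linarith⟩
  have hχ : ∀ x ∈ Metric.ball (0 : E n) R, (χ : E n → ℝ) =ᶠ[nhds x] fun _ => 1 := by
    intro x hx
    filter_upwards [Metric.isOpen_ball.mem_nhds hx] with y hy
    exact χ.one_of_mem_closedBall (Metric.ball_subset_closedBall hy)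
  set Ψ' : E n → ℝ := fun x => χ x * Ψ x with hΨ'
  have hΨ'c : ContDiff ℝ 2 Ψ' := χ.contDiff.mul hΨ
  have hΨ's : HasCompactSupport Ψ' := χ.hasCompactSupport.mul_right
  have hP : PGC 2 Ψ' := pgc_of_compact (by exact_mod_cast hΨ'c) hΨ's
  have hev : ∀ x ∈ tsupport h, Ψ' =ᶠ[nhds x] Ψ := by
    intro x hx
    filter_upwards [hχ x (hR hx)] with y hy
    simp only [hΨ', hy, one_mul]
  have key := pair_pg hV hV4 (hh.of_le (by norm_num)) hc hP
  have a1 : ∀ x, gf V h x * eul Ψ' x = gf V h x * eul Ψ x := by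
    intro x
    by_cases hx : x ∈ tsupport h
    · rw [(eul_eventually (hev x hx)).eq_of_nhds]
    · rw [gf_off hx, zero_mul, zero_mul]
  have a2 : ∀ x, tr2 (hess Ψ' x) (Nf V h x) + ∑ i, ∑ j, hess Ψ' x i j * x i * vf V h j x
      = tr2 (hess Ψ x) (Nf V h x) + ∑ i, ∑ j, hess Ψ x i j * x i * vf V h j x := by
    intro x
    by_cases hx : x ∈ tsupport h
    · rw [(hess_eventually (hev x hx)).eq_of_nhds]
    · rw [Nf_off hx]
      simp only [vf_off hx, mul_zero, Finset.sum_const_zero]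
      simp [tr2]
  rw [wint_congr a1, wint_congr a2] at key
  exact key

end CM.H63
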