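import Pool.Agent.Helper63.MM.Base

/-!
Project MM, helper63: regularity and derivatives of the determinant and of the inverse.
-/

open MeasureTheory

namespace CM.H63

variable {n : ℕ}

theorem contDiff_det {k : ℕ} {G : E n → Mt n} (hG : ∀ i j, ContDiff ℝ k (fun y => G y i j)) :
    ContDiff ℝ k (fun y => (G y).det) := by
  have h2 : (fun y => (G y).det)
      = fun y => ∑ σ : Equiv.Perm (Fin n), ((Equiv.Perm.sign σ : ℤ) : ℝ) * ∏ i, G y (σ i) i := by
    funext y
    rw [Matrix.det_apply']
  rw [h2]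
  refine ContDiff.sum fun σ _ => contDiff_const.mul ?_
  exact contDiff_prod fun i _ => hG (σ i) i

theorem contDiff_adj {k : ℕ} {G : E n → Mt n} (hG : ∀ i j, ContDiff ℝ k (fun y => G y i j))
    (i j : Fin n) : ContDiff ℝ k (fun y => (G y).adjugate i j) := by
  have h : (fun y => (G y).adjugate i j)
      = fun y => ((G y).updateRow j (Pi.single i 1)).det := by
    funext y
    rw [Matrix.adjugate_apply]
  rw [h]
  refine contDiff_det (G := fun y => (G y).updateRow j (Pi.single i 1)) fun a b => ?_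
  by_cases ha : a = j
  · subst ha
    simp only [Matrix.updateRow_self]
    exact contDiff_const
  · simp only [Matrix.updateRow_ne ha]
    exact hG a b

theorem inv_entry (A : Mt n) (i j : Fin n) : A⁻¹ i j = (A.det)⁻¹ * A.adjugate i j := by
  rw [Matrix.inv_def, Ring.inverse_eq_inv', Matrix.smul_apply, smul_eq_mul]

theorem contDiff_inv {k : ℕ} {G : E n → Mt n} (hG : ∀ i j, ContDiff ℝ k (fun y => G y i j))
    (hd : ∀ y, (G y).det ≠ 0) (i j : Fin n) : ContDiff ℝ k (fun y => (G y)⁻¹ i j) := by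
  have h : (fun y => (G y)⁻¹ i j) = fun y => ((G y).det)⁻¹ * (G y).adjugate i j := by
    funext y
    rw [inv_entry]
  rw [h]
  exact ((contDiff_det hG).inv hd).mul (contDiff_adj hG i j)

theorem pd_inv {G : E n → Mt n} (hG : ∀ i j, ContDiff ℝ 1 (fun y => G y i j))
    (hd : ∀ y, (G y).det ≠ 0) (k i j : Fin n) (x : E n) :
    pd k (fun y => (G y)⁻¹ i j) x
      = - ∑ a, ∑ b, (G x)⁻¹ i a * pd k (fun y => G y a b) x * (G x)⁻¹ b j := by
  have hGd : ∀ a b, DifferentiableAt ℝ (fun y => G y a b) x := fun a b =>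
    ((hG a b).differentiable (by norm_num)) x
  have hId : ∀ a b, DifferentiableAt ℝ (fun y => (G y)⁻¹ a b) x := fun a b =>
    ((contDiff_inv (k := 1) hG hd a b).differentiable (by norm_num)) x
  have h1 : ∀ b, (∑ a, (pd k (fun y => (G y)⁻¹ i a) x * G x a b
      + (G x)⁻¹ i a * pd k (fun y => G y a b) x)) = 0 := by
    intro b
    have e : (fun y => ∑ a, (G y)⁻¹ i a * G y a b) = fun _ => (1 : Mt n) i b := by
      funext y
      have := congrFun (congrFun (Matrix.nonsing_inv_mul (G y) (IsUnit.mk0 _ (hd y))) i) b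
      rw [Matrix.mul_apply] at this
      exact this
    have e2 := pd_sum (Finset.univ) (f := fun a y => (G y)⁻¹ i a * G y a b) (x := x)
      (fun a _ => (hId i a).mul (hGd a b)) k
    rw [e, pd_const] at e2
    rw [e2]
    exact Finset.sum_congr rfl fun a _ => (pd_mul (hId i a) (hGd a b) k).symm
  have h2 : ∀ b, (∑ a, pd k (fun y => (G y)⁻¹ i a) x * G x a b)
      = - ∑ a, (G x)⁻¹ i a * pd k (fun y => G y a b) x := by
    intro b
    have := h1 b
    rw [Finset.sum_add_distrib] at this
    linarith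
  have h3 : pd k (fun y => (G y)⁻¹ i j) x
      = ∑ b, (∑ a, pd k (fun y => (G y)⁻¹ i a) x * G x a b) * (G x)⁻¹ b j := by
    have e : ∀ a, ∑ b, G x a b * (G x)⁻¹ b j = (1 : Mt n) a j := by
      intro a
      have := congrFun (congrFun (Matrix.mul_nonsing_inv (G x) (IsUnit.mk0 _ (hd x))) a) j
      rw [Matrix.mul_apply] at this
      exact this
    have e2 : ∑ b, (∑ a, pd k (fun y => (G y)⁻¹ i a) x * G x a b) * (G x)⁻¹ b j
        = ∑ a, pd k (fun y => (G y)⁻¹ i a) x * ∑ b, G x a b * (G x)⁻¹ b j := by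
      simp only [Finset.sum_mul, Finset.mul_sum, mul_assoc]
      exact Finset.sum_comm
    rw [e2]
    simp only [e, Matrix.one_apply, mul_ite, mul_one, mul_zero, Finset.sum_ite_eq',
      Finset.mem_univ, if_true]
  rw [h3]
  simp only [h2, neg_mul, Finset.sum_neg_distrib, Finset.sum_mul]
  rw [Finset.sum_comm]

theorem pd_logdet {G : E n → Mt n} {x : E n}
    (hG : ∀ i j, DifferentiableAt ℝ (fun y => G y i j) x)
    (hdd : DifferentiableAt ℝ (fun y => (G y).det) x)
    (hd : (G x).det ≠ 0) (k : Fin n) :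
    pd k (fun y => Real.log (G y).det) x
      = ∑ i, ∑ a, (G x)⁻¹ i a * pd k (fun y => G y a i) x := by
  have h1 : pd k (fun y => Real.log (G y).det) x = ((G x).det)⁻¹ * pd k (fun y => (G y).det) x := by
    unfold pd
    rw [fderiv.log hdd hd]
    simp
  rw [h1, pd_det hG, Finset.mul_sum]
  refine Finset.sum_congr rfl fun i _ => ?_
  rw [Finset.mul_sum]
  refine Finset.sum_congr rfl fun a _ => ?_
  rw [inv_entry]
  ring

end CM.H63
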