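import Pool.Agent.Helper63.MM.St

/-!
Project MM, helper63: row B4.PAIR (`ST_PAIR`).
-/

open MeasureTheory

namespace CM.H63

variable {n : ℕ}

/-! ### compactly supported functions -/

theorem hcs_pd {f : E n → ℝ} (h : HasCompactSupport f) (i : Fin n) :
    HasCompactSupport (pd i f) := by
  unfold pd
  exact h.fderiv_apply (𝕜 := ℝ) (EuclideanSpace.single i (1 : ℝ))

theorem hcs_pdl {f : E n → ℝ} (h : HasCompactSupport f) (l : List (Fin n)) :
    HasCompactSupport (pdl l f) := by
  induction l with
  | nil => exact h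
  | cons i l ih => exact hcs_pd ih i

theorem cd_pdl {k : ℕ} {f : E n → ℝ} (l : List (Fin n)) (h : ContDiff ℝ (k + l.length : ℕ) f) :
    ContDiff ℝ k (pdl l f) := by
  induction l generalizing k with
  | nil => exact h
  | cons i l ih =>
    have h2 : ContDiff ℝ (k + 1 : ℕ) (pdl l f) := by
      apply ih
      have e : k + 1 + l.length = k + (i :: l).length := by
        simp only [List.length_cons]
        omega
      rw [e]
      exact h
    exact contDiff_pd h2 i

theorem pgc_of_compact {k : ℕ} {f : E n → ℝ} (hc : ContDiff ℝ k f) (hs : HasCompactSupport f) :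
    PGC k f := by
  refine ⟨hc, fun l hl => ?_⟩
  have h1 : ContDiff ℝ 0 (pdl l f) := by
    have := cd_pdl (k := 0) l (f := f) (hc.of_le (by
      have : (0 + l.length : ℕ) ≤ k := by omega
      exact_mod_cast this))
    exact_mod_cast this
  obtain ⟨C, hC⟩ := (hcs_pdl hs l).exists_bound_of_continuous h1.continuous
  exact pg_of_bdd (C := C) fun x => by simpa using hC x

/-! ### locality -/

theorem pd_eventually {f g : E n → ℝ} {x : E n} (h : f =ᶠ[nhds x] g) (i : Fin n) :
    pd i f =ᶠ[nhds x] pd i g := by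
  have := h.fderiv (𝕜 := ℝ)
  filter_upwards [this] with y hy
  unfold pd
  rw [hy]

theorem hess_eventually {f g : E n → ℝ} {x : E n} (h : f =ᶠ[nhds x] g) :
    hess f =ᶠ[nhds x] hess g := by
  have h1 : ∀ i j, pd i (pd j f) =ᶠ[nhds x] pd i (pd j g) := fun i j =>
    pd_eventually (pd_eventually h j) i
  have h2 : ∀ᶠ y in nhds x, ∀ i j, pd i (pd j f) y = pd i (pd j g) y := by
    rw [Filter.eventually_all]
    intro i
    rw [Filter.eventually_all]
    intro j
    exact h1 i j
  filter_upwards [h2] with y hy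
  unfold hess
  ext i j
  simp only [Matrix.of_apply]
  exact hy i j

theorem eul_eventually {f g : E n → ℝ} {x : E n} (h : f =ᶠ[nhds x] g) :
    eul f =ᶠ[nhds x] eul g := by
  have := h.fderiv (𝕜 := ℝ)
  filter_upwards [this] with y hy
  unfold eul
  rw [hy]

theorem AK_eventually {τ : E n → Mt n} {κ : ℝ} {f g : E n → ℝ} {x : E n}
    (h : f =ᶠ[nhds x] g) : AK τ κ f =ᶠ[nhds x] AK τ κ g := by
  filter_upwards [h, hess_eventually h, eul_eventually h] with y h1 h2 h3
  unfold AK LL
  rw [h1, h2, h3]

theorem hess_zero (x : E n) : hess (fun _ : E n => (0 : ℝ)) x = 0 := by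
  ext i j
  have e : pd j (fun _ : E n => (0 : ℝ)) = fun _ => 0 := by
    funext y
    exact pd_const 0 y j
  simp only [hess, Matrix.of_apply, Matrix.zero_apply]
  rw [e]
  exact pd_const 0 x i

theorem AK_zero (τ : E n → Mt n) (κ : ℝ) : AK τ κ (fun _ : E n => (0 : ℝ)) = fun _ => 0 := by
  funext x
  unfold AK LL
  rw [hess_zero]
  simp [tr2, eul]

theorem ev_zero {h : E n → ℝ} {x : E n} (hx : x ∉ tsupport h) : h =ᶠ[nhds x] fun _ => 0 :=
  notMem_tsupport_iff_eventuallyEq.1 hx

theorem hess_off {h : E n → ℝ} {x : E n} (hx : x ∉ tsupport h) : hess h x = 0 := by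
  rw [(hess_eventually (ev_zero hx)).eq_of_nhds, hess_zero]

theorem AK_off (τ : E n → Mt n) (κ : ℝ) {h : E n → ℝ} {x : E n} (hx : x ∉ tsupport h) :
    AK τ κ h =ᶠ[nhds x] fun _ => 0 := by
  have := AK_eventually (τ := τ) (κ := κ) (ev_zero hx)
  rwa [AK_zero] at this

theorem gf_off {V h : E n → ℝ} {x : E n} (hx : x ∉ tsupport h) : gf V h x = 0 := by
  unfold gf
  have := AK_eventually (τ := tau V) (κ := 0) (AK_off (tau V) 1 hx)
  rw [AK_zero] at this
  exact this.eq_of_nhds

theorem vf_off {V h : E n → ℝ} {x : E n} (hx : x ∉ tsupport h) (i : Fin n) :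
    vf V h i x = 0 := by
  unfold vf
  refine Finset.sum_eq_zero fun j _ => ?_
  have := (pd_eventually (AK_off (tau V) 1 hx) j).eq_of_nhds
  rw [this, pd_const, mul_zero]

theorem Nf_off {V h : E n → ℝ} {x : E n} (hx : x ∉ tsupport h) : Nf V h x = 0 := by
  unfold Nf
  rw [hess_off hx]
  simp

theorem hcs_of_off {α : Type*} [Zero α] {h : E n → ℝ} (hs : HasCompactSupport h) {g : E n → α}
    (hg : ∀ x, x ∉ tsupport h → g x = 0) : HasCompactSupport g :=
  HasCompactSupport.intro hs hg

/-! ### regularity of `f = (A - 1) h` -/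

theorem contDiff_tau {k : ℕ} {V : E n → ℝ} (hV : ContDiff ℝ (k + 2 : ℕ) V)
    (hd : ∀ y, (hess V y).det ≠ 0) (i j : Fin n) : ContDiff ℝ k (fun y => tau V y i j) :=
  contDiff_inv (G := hess V) (fun a b => hess_contDiff hV a b) hd i j

theorem contDiff_AK {k : ℕ} {V h : E n → ℝ} {κ : ℝ} (hV : ContDiff ℝ (k + 2 : ℕ) V)
    (hd : ∀ y, (hess V y).det ≠ 0) (hh : ContDiff ℝ (k + 2 : ℕ) h) :
    ContDiff ℝ k (AK (tau V) κ h) := by
  unfold AK LL tr2 eul
  have h0 : ContDiff ℝ k h := hh.of_le (by exact_mod_cast Nat.le_add_right k 2)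
  have h1 : ContDiff ℝ k (fderiv ℝ h) := hh.fderiv_right (by
    have : k + 1 ≤ k + 2 := by omega
    exact_mod_cast this)
  refine ContDiff.sub (ContDiff.neg (ContDiff.sub ?_ (h1.clm_apply contDiff_id)))
    (contDiff_const.mul h0)
  exact ContDiff.sum fun i _ => ContDiff.sum fun j _ =>
    (contDiff_tau hV hd i j).mul (hess_contDiff hh i j)

/-! ### the pointwise identity `div N = v` -/

theorem pd_AK {V h : E n → ℝ} (hV : VG V) (hh : ContDiff ℝ 3 h) (a : Fin n) (x : E n) :
    pd a (AK (tau V) 1 h) x
      = (∑ b, x b * hess h x a b)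
        - (∑ b, ∑ j, (pd a (fun y => tau V y b j) x * hess h x b j
            + tau V x b j * pd a (pd b (pd j h)) x)) := by
  have hh2 : ContDiff ℝ 2 h := hh.of_le (by norm_num)
  have hhd : DifferentiableAt ℝ h x := (hh2.differentiable (by norm_num)) x
  have hp : ∀ a, DifferentiableAt ℝ (pd a h) x := fun a =>
    ((contDiff_pd (k := 1) (by exact_mod_cast hh2) a).differentiable (by norm_num)) x
  have hco : ∀ a : Fin n, DifferentiableAt ℝ (fun y : E n => y a) x := fun a =>
    (EuclideanSpace.proj (𝕜 := ℝ) a : E n →L[ℝ] ℝ).differentiableAt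
  have he : eul h = fun y => ∑ a, y a * pd a h y := by
    funext y
    exact eul_eq_sum h y
  have hed : DifferentiableAt ℝ (eul h) x := by
    rw [he]
    exact DifferentiableAt.fun_sum fun a _ => (hco a).mul (hp a)
  have h1 : pd a (eul h) x = pd a h x + ∑ b, x b * hess h x a b := by
    rw [he, pd_sum _ (f := fun b (y : E n) => y b * pd b h y) (fun b _ => (hco b).mul (hp b))]
    have e : ∀ b, pd a (fun y => y b * pd b h y) x
        = (if a = b then pd b h x else 0) + x b * hess h x a b := by
      intro b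
      rw [pd_mul (hco b) (hp b), pd_coord]
      simp [hess]
    rw [Finset.sum_congr rfl fun b _ => e b, Finset.sum_add_distrib]
    simp
  have ht : ∀ b j, DifferentiableAt ℝ (fun y => tau V y b j) x := fun b j =>
    ((pgc_tau hV b j).1.differentiable (by norm_num)) x
  have hH : ∀ b j, DifferentiableAt ℝ (fun y => hess h y b j) x := fun b j => by
    have : ContDiff ℝ 1 (fun y => hess h y b j) := by
      exact_mod_cast hess_contDiff (k := 1) (by exact_mod_cast hh) b j
    exact (this.differentiable (by norm_num)) x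
  have hm : ∀ b j, DifferentiableAt ℝ (fun y => tau V y b j * hess h y b j) x := fun b j =>
    (ht b j).mul (hH b j)
  have hs : ∀ b, DifferentiableAt ℝ (fun y => ∑ j, tau V y b j * hess h y b j) x := fun b =>
    DifferentiableAt.fun_sum fun j _ => hm b j
  have h2 : pd a (fun y => ∑ b, ∑ j, tau V y b j * hess h y b j) x
      = ∑ b, ∑ j, (pd a (fun y => tau V y b j) x * hess h x b j
            + tau V x b j * pd a (pd b (pd j h)) x) := by
    rw [pd_sum _ (f := fun b y => ∑ j, tau V y b j * hess h y b j) (fun b _ => hs b)]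
    refine Finset.sum_congr rfl fun b _ => ?_
    rw [pd_sum _ (f := fun j y => tau V y b j * hess h y b j) (fun j _ => hm b j)]
    refine Finset.sum_congr rfl fun j _ => ?_
    rw [pd_mul (ht b j) (hH b j)]
    rfl
  have hss : DifferentiableAt ℝ (fun y => ∑ b, ∑ j, tau V y b j * hess h y b j) x :=
    DifferentiableAt.fun_sum fun b _ => hs b
  have e3 : AK (tau V) 1 h = fun y => (eul h y - h y)
      - ∑ b, ∑ j, tau V y b j * hess h y b j := by
    funext y
    unfold AK LL tr2
    ring
  have e4 := pd_sub (f := fun y => eul h y - h y)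
    (g := fun y => ∑ b, ∑ j, tau V y b j * hess h y b j) (x := x) (hed.sub hhd) hss a
  have e5 := pd_sub (f := eul h) (g := h) (x := x) hed hhd a
  rw [e3, e4, e5, h1, h2]
  ring

/-- `q = τ D²h`. -/
noncomputable def qf (V h : E n → ℝ) (i b : Fin n) : E n → ℝ :=
  fun x => ∑ a, tau V x i a * hess h x a b

theorem pd_qf {V h : E n → ℝ} (hV : VG V) (hh : ContDiff ℝ 3 h) (i b j : Fin n) (x : E n) :
    pd j (qf V h i b) x = ∑ a, (pd j (fun y => tau V y i a) x * hess h x a b
      + tau V x i a * pd j (pd a (pd b h)) x) := by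
  have ht : ∀ b j, DifferentiableAt ℝ (fun y => tau V y b j) x := fun b j =>
    ((pgc_tau hV b j).1.differentiable (by norm_num)) x
  have hH : ∀ b j, DifferentiableAt ℝ (fun y => hess h y b j) x := fun b j => by
    have : ContDiff ℝ 1 (fun y => hess h y b j) := by
      exact_mod_cast hess_contDiff (k := 1) (by exact_mod_cast hh) b j
    exact (this.differentiable (by norm_num)) x
  unfold qf
  rw [pd_sum _ (f := fun a y => tau V y i a * hess h y a b)
    (fun a _ => (ht i a).mul (hH a b))]
  refine Finset.sum_congr rfl fun a _ => ?_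
  rw [pd_mul (ht i a) (hH a b)]
  rfl

/-- contraction used twice. -/
theorem T_contract (t M : Fin n → Fin n → ℝ) (T : Fin n → Fin n → Fin n → ℝ)
    (hT : ∀ a b c, T a b c = T b a c) (i : Fin n) :
    ∑ j, ∑ c, ∑ d, t i c * T j c d * M d j = ∑ a, ∑ c, ∑ d, t i a * T a c d * M d c := by
  calc ∑ j, ∑ c, ∑ d, t i c * T j c d * M d j
      = ∑ c, ∑ j, ∑ d, t i c * T j c d * M d j := Finset.sum_comm
    _ = ∑ c, ∑ j, ∑ d, t i c * T c j d * M d j := by
        refine Finset.sum_congr rfl fun c _ => Finset.sum_congr rfl fun j _ =>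
          Finset.sum_congr rfl fun d _ => ?_
        rw [hT j c d]

theorem divN {V h : E n → ℝ} (hV : VG V) (hh : ContDiff ℝ 3 h) (i : Fin n) (x : E n) :
    (∑ b, x b * qf V h i b x) - ∑ b, ∑ j, tau V x j b * pd j (qf V h i b) x
      = vf V h i x := by
  have hV2 : ContDiff ℝ 2 V := hV.reg.of_le (by norm_num)
  have hh2 : ContDiff ℝ 2 h := hh.of_le (by norm_num)
  -- abbreviations
  set t : Fin n → Fin n → ℝ := fun a b => tau V x a b with ht
  set H : Fin n → Fin n → ℝ := fun a b => hess h x a b with hH
  set T : Fin n → Fin n → Fin n → ℝ := fun a b c => pd a (pd b (pd c V)) x with hT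
  set S : Fin n → Fin n → Fin n → ℝ := fun a b c => pd a (pd b (pd c h)) x with hS
  have tsy : ∀ a b, t a b = t b a := fun a b => tau_symm hV2 x a b
  have Hsy : ∀ a b, H a b = H b a := fun a b => hess_symm hh2 x a b
  have T12 : ∀ a b c, T a b c = T b a c := fun a b c =>
    CM.H63.pd_comm (by exact_mod_cast CM.H63.contDiff_pd (k := 2) (by exact_mod_cast hV.reg) c) a b x
  have S12 : ∀ a b c, S a b c = S b a c := fun a b c =>
    CM.H63.pd_comm (by exact_mod_cast CM.H63.contDiff_pd (k := 2) (by exact_mod_cast hh) c) a b x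
  have hdt : ∀ k a b, pd k (fun y => tau V y a b) x
      = - ∑ c, ∑ d, t a c * T k c d * t d b := fun k a b => pd_tau hV k a b x
  set M : Fin n → Fin n → ℝ := fun a b => ∑ c, ∑ d, t a c * H c d * t d b with hM
  have Msy : ∀ a b, M a b = M b a := by
    intro a b
    simp only [hM]
    rw [Finset.sum_comm]
    refine Finset.sum_congr rfl fun c _ => Finset.sum_congr rfl fun d _ => ?_
    rw [tsy a d, Hsy d c, tsy c b]
    ring
  -- left side, second sum
  have hL : ∑ b, ∑ j, tau V x j b * pd j (qf V h i b) x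
      = - (∑ j, ∑ c, ∑ d, t i c * T j c d * M d j)
        + ∑ b, ∑ j, ∑ a, t j b * t i a * S j a b := by
    have e1 : ∀ b j, tau V x j b * pd j (qf V h i b) x
        = (∑ a, t j b * (pd j (fun y => tau V y i a) x) * H a b)
          + ∑ a, t j b * t i a * S j a b := by
      intro b j
      rw [pd_qf hV hh, Finset.mul_sum, ← Finset.sum_add_distrib]
      refine Finset.sum_congr rfl fun a _ => ?_
      simp only [ht, hH, hS]
      ring
    simp only [e1, Finset.sum_add_distrib]
    congr 1
    -- the tau derivative part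
    have e2 : ∀ b j a, t j b * (pd j (fun y => tau V y i a) x) * H a b
        = - ∑ c, ∑ d, t i c * T j c d * (t d a * H a b * t b j) := by
      intro b j a
      rw [hdt j i a, mul_neg, neg_mul, Finset.mul_sum, Finset.sum_mul]
      congr 1
      refine Finset.sum_congr rfl fun c _ => ?_
      rw [Finset.mul_sum, Finset.sum_mul]
      refine Finset.sum_congr rfl fun d _ => ?_
      rw [tsy j b]
      ring
    simp only [e2, Finset.sum_neg_distrib]
    congr 1
    rw [Finset.sum_comm]
    refine Finset.sum_congr rfl fun j _ => ?_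
    -- sum over b, a, c, d  versus  c, d, (a, b)
    have e3 : ∀ c d, t i c * T j c d * M d j
        = ∑ a, ∑ b, t i c * T j c d * (t d a * H a b * t b j) := by
      intro c d
      simp only [hM, Finset.mul_sum]
    simp only [e3]
    calc ∑ b, ∑ a, ∑ c, ∑ d, t i c * T j c d * (t d a * H a b * t b j)
        = ∑ b, ∑ c, ∑ a, ∑ d, t i c * T j c d * (t d a * H a b * t b j) :=
          Finset.sum_congr rfl fun b _ => Finset.sum_comm
      _ = ∑ c, ∑ b, ∑ a, ∑ d, t i c * T j c d * (t d a * H a b * t b j) := Finset.sum_comm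
      _ = ∑ c, ∑ b, ∑ d, ∑ a, t i c * T j c d * (t d a * H a b * t b j) :=
          Finset.sum_congr rfl fun c _ => Finset.sum_congr rfl fun b _ => Finset.sum_comm
      _ = ∑ c, ∑ d, ∑ b, ∑ a, t i c * T j c d * (t d a * H a b * t b j) :=
          Finset.sum_congr rfl fun c _ => Finset.sum_comm
      _ = ∑ c, ∑ d, ∑ a, ∑ b, t i c * T j c d * (t d a * H a b * t b j) :=
          Finset.sum_congr rfl fun c _ => Finset.sum_congr rfl fun d _ => Finset.sum_comm
  -- right side
  have hR : vf V h i x = (∑ a, ∑ b, t i a * (x b * H a b))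
      + (∑ a, ∑ c, ∑ d, t i a * T a c d * M d c)
      - ∑ a, ∑ b, ∑ j, t i a * (t b j * S a b j) := by
    have e1 : ∀ a, tau V x i a * pd a (AK (tau V) 1 h) x
        = (∑ b, t i a * (x b * H a b))
          + (∑ c, ∑ d, t i a * T a c d * M d c)
          - ∑ b, ∑ j, t i a * (t b j * S a b j) := by
      intro a
      rw [pd_AK hV hh]
      have e2 : ∑ b, ∑ j, (pd a (fun y => tau V y b j) x * hess h x b j
            + tau V x b j * pd a (pd b (pd j h)) x)
          = - (∑ c, ∑ d, T a c d * M d c) + ∑ b, ∑ j, t b j * S a b j := by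
        simp only [Finset.sum_add_distrib]
        congr 1
        have e3 : ∀ b j, pd a (fun y => tau V y b j) x * hess h x b j
            = - ∑ c, ∑ d, T a c d * (t d j * H j b * t b c) := by
          intro b j
          rw [hdt a b j, neg_mul, Finset.sum_mul]
          congr 1
          refine Finset.sum_congr rfl fun c _ => ?_
          rw [Finset.sum_mul]
          refine Finset.sum_congr rfl fun d _ => ?_
          have := Hsy b j
          simp only [hH] at this ⊢
          rw [this]
          ring
        simp only [e3, Finset.sum_neg_distrib]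
        congr 1
        have e4 : ∀ c d, T a c d * M d c = ∑ j, ∑ b, T a c d * (t d j * H j b * t b c) := by
          intro c d
          simp only [hM, Finset.mul_sum]
        simp only [e4]
        calc ∑ b, ∑ j, ∑ c, ∑ d, T a c d * (t d j * H j b * t b c)
            = ∑ b, ∑ c, ∑ j, ∑ d, T a c d * (t d j * H j b * t b c) :=
              Finset.sum_congr rfl fun b _ => Finset.sum_comm
          _ = ∑ c, ∑ b, ∑ j, ∑ d, T a c d * (t d j * H j b * t b c) := Finset.sum_comm
          _ = ∑ c, ∑ b, ∑ d, ∑ j, T a c d * (t d j * H j b * t b c) :=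
              Finset.sum_congr rfl fun c _ => Finset.sum_congr rfl fun b _ => Finset.sum_comm
          _ = ∑ c, ∑ d, ∑ b, ∑ j, T a c d * (t d j * H j b * t b c) :=
              Finset.sum_congr rfl fun c _ => Finset.sum_comm
          _ = ∑ c, ∑ d, ∑ j, ∑ b, T a c d * (t d j * H j b * t b c) :=
              Finset.sum_congr rfl fun c _ => Finset.sum_congr rfl fun d _ => Finset.sum_comm
      rw [e2, mul_sub, mul_add, mul_neg, Finset.mul_sum, Finset.mul_sum, Finset.mul_sum]
      have e5 : ∑ c, tau V x i a * ∑ d, T a c d * M d c = ∑ c, ∑ d, t i a * T a c d * M d c := by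
        refine Finset.sum_congr rfl fun c _ => ?_
        rw [Finset.mul_sum]
        exact Finset.sum_congr rfl fun d _ => by simp only [ht]; ring
      have e6 : ∑ b, tau V x i a * ∑ j, t b j * S a b j = ∑ b, ∑ j, t i a * (t b j * S a b j) := by
        refine Finset.sum_congr rfl fun b _ => ?_
        rw [Finset.mul_sum]
      rw [e5, e6]
      ring
    unfold vf
    rw [Finset.sum_congr rfl fun a _ => e1 a, Finset.sum_sub_distrib, Finset.sum_add_distrib]
  rw [hL, hR, T_contract t M T T12 i]
  have e7 : ∑ b, x b * qf V h i b x = ∑ a, ∑ b, t i a * (x b * H a b) := by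
    rw [Finset.sum_comm]
    refine Finset.sum_congr rfl fun b _ => ?_
    unfold qf
    rw [Finset.mul_sum]
    exact Finset.sum_congr rfl fun a _ => by simp only [ht, hH]; ring
  have e8 : ∑ b, ∑ j, ∑ a, t j b * t i a * S j a b = ∑ a, ∑ b, ∑ j, t i a * (t b j * S a b j) := by
    calc ∑ b, ∑ j, ∑ a, t j b * t i a * S j a b
        = ∑ b, ∑ a, ∑ j, t j b * t i a * S j a b :=
          Finset.sum_congr rfl fun b _ => Finset.sum_comm
      _ = ∑ a, ∑ b, ∑ j, t j b * t i a * S j a b := Finset.sum_comm
      _ = ∑ a, ∑ b, ∑ j, t i a * (t b j * S a b j) := by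
          refine Finset.sum_congr rfl fun a _ => Finset.sum_congr rfl fun b _ =>
            Finset.sum_congr rfl fun j _ => ?_
          have e9 : S j a b = S a b j := by
            rw [S12 j a b]
            have h3 : pd j (pd b h) = pd b (pd j h) := by
              funext y
              exact CM.H63.pd_comm hh2 j b y
            simp only [hS]
            rw [h3]
          rw [e9, tsy j b]
          ring
  rw [e7, e8]
  ring

end CM.H63
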